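import Pool.Agent.Helper583.TTRun

/-!
Degrees of topological categoricity: oracles, approximations with true stages.
-/

namespace Pool.Agent.H938R3.TC

open Pool.Agent.Helper583.TT

/-- `[α (k - 1), ..., α 0]` -/
def hst (α : ℕ → List Bool) : ℕ → List (List Bool)
  | 0 => []
  | k + 1 => α k :: hst α k

/-- `α` is a computable approximation of `A` (`α k` has length `k`) from below in which every
process `U e` that fires infinitely often fires at a stage at which the approximation is true -/
structure Apx (A : ℕ → Bool) (U : ℕ → List (List Bool) → Bool) (α : ℕ → List Bool) : Prop where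
  comp : Computable α
  len : ∀ k, (α k).length = k
  mono : ∀ j k n, j ≤ k → (α j).getD n false = true → (α k).getD n false = true
  lim : ∀ n, ∃ k₀, ∀ k ≥ k₀, (α k).getD n false = A n
  low : ∀ e, (∀ K, ∃ k ≥ K, U e (hst α (k + 1)) = true) →
    ∃ k, U e (hst α (k + 1)) = true ∧ ∀ n < k, (α k).getD n false = A n

/-- `A` is c.e., noncomputable and has approximations with true stages for all computable
families of processes -/
structure LowCE (A : ℕ → Bool) : Prop where
  re : REPred fun n => A n = true
  nc : ¬ Computable A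
  apx : ∀ U : ℕ → List (List Bool) → Bool, Computable₂ U → ∃ α, Apx A U α

/-- the sequence `p` together with the oracle `A` -/
def orc (A : ℕ → Bool) (p : ℕ → ℕ) (j : ℕ) : ℕ := Nat.pair (p j) (A j).toNat

/-- the map `h` is computable with the oracle `A` -/
def CompMapO (A : ℕ → Bool) (M N : CMS) (h : M.Y → N.Y) : Prop :=
  ∃ φ : List ℕ × ℕ →. ℕ, Partrec φ ∧
    ∀ x p, IsName M p x → ∃ q, IsName N q (h x) ∧
      ∀ n, (∃ k, q n ∈ φ (pre (orc A p) k, n)) ∧
        ∀ k m, m ∈ φ (pre (orc A p) k, n) → m = q n

/-- the program `c` with the oracle `A` computes `h` -/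
def RnO (A : ℕ → Bool) (M N : CMS) (h : M.Y → N.Y) (c : ℕ) : Prop :=
  ∀ x p, IsName M p x → ∃ q, IsName N q (h x) ∧
    (∀ L n m, rn c (pre (orc A p) L) n = some m → m = q n) ∧
    ∀ n, ∃ L₀, ∀ L ≥ L₀, rn c (pre (orc A p) L) n = some (q n)

/-- the word `σ` together with the bits given by the finite string `a` -/
def dec (a : List Bool) (σ : List ℕ) : List ℕ :=
  (List.range σ.length).map fun j => Nat.pair (σ.getD j 0) (a.getD j false).toNat

end Pool.Agent.H938R3.TC
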