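import Pool.Agent.H938R3.TC.BMach

/-!
The strategies with a low oracle: the passages between the modes.
-/

namespace Pool.Agent.H938R3.TC

open Nat.Partrec (Code)
open Filter Topology
open Pool.Agent.Helper583.TT
open Pool.Agent.Helper583.TC.J2 (srchO srchO_some srchO_ne srchO_succ primrec_srchO valsO
  valsO_succ primrec_valsO)

variable {A : ℕ → Bool} {P : Prm} {α : ℕ → List Bool}

theorem trn_iff {e j k : ℕ} :
    trn P α e j k = true ↔ md P α e k = j ∧ md P α e (k + 1) = j + 1 := by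
  unfold trn md
  rw [Bool.and_eq_true, decide_eq_true_eq, decide_eq_true_eq]

theorem md_step {e j k : ℕ} (hj : j < 4) (h : md P α e k = j) :
    md P α e (k + 1) = j ∨ md P α e (k + 1) = j + 1 := by
  have h' : j = 0 ∨ j = 1 ∨ j = 2 ∨ j = 3 := by omega
  rcases h' with rfl | rfl | rfl | rfl
  · rcases (step0 P α e k h).2 with h1 | h1
    · exact Or.inl h1.2
    · exact Or.inr h1.2
  · rcases (step1 P α e k h).2 with h1 | h1 | h1
    · exact Or.inl h1.2.1
    · exact Or.inr h1.2.2.2.1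
    · exact Or.inl h1.2.2.1
  · rcases (step2 P α e k h).2.2.2 with h1 | h1
    · exact Or.inl h1.2
    · exact Or.inr h1.2
  · rcases (step3 P α e k h).2.2.2 with h1 | h1
    · exact Or.inl h1.2.1
    · exact Or.inr h1.2.1

theorem pass_or {e j k1 : ℕ} (hj : j < 4) (h : md P α e k1 = j) :
    (∀ k ≥ k1, md P α e k = j) ∨ ∃ s ≥ k1, trn P α e j s = true := by
  rcases phase (md P α e) j k1 h with h1 | ⟨s, h1, h2, h3⟩
  · exact Or.inl h1
  · right
    refine ⟨s, h1, trn_iff.2 ⟨h2 s h1 le_rfl, ?_⟩⟩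
    rcases md_step hj (h2 s h1 le_rfl) with h4 | h4
    · exact absurd h4 h3
    · exact h4

/-- a strategy which has left mode zero has a small number -/
theorem md_pos {e k : ℕ} (h : 0 < md P α e k) : e < k := by
  induction k with
  | zero => exact absurd h (by show ¬ 0 < (0 : ℕ); omega)
  | succ k ih =>
    by_cases h1 : 0 < md P α e k
    · exact lt_trans (ih h1) (Nat.lt_succ_self k)
    · have h0 : md P α e k = 0 := by omega
      rcases (step0 P α e k h0).2 with h2 | h2
      · omega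
      · have h3 := h2.1
        unfold ev1 at h3
        rw [Option.bind_eq_some_iff] at h3
        obtain ⟨qs, -, h3⟩ := h3
        rw [Option.bind_eq_some_iff] at h3
        obtain ⟨m, -, h3⟩ := h3
        split at h3
        · rename_i h4
          exact Nat.lt_succ_of_le h4.2
        · simp at h3

theorem trn_zero {e k₀ : ℕ} (h : trn P α e 0 k₀ = true) :
    ev1 P (bt (α k₀)) e k₀ = some (kk P α e (k₀ + 1)) ∧ ∀ k ≤ k₀, num P α e k = 0 := by
  obtain ⟨h1, h2⟩ := trn_iff.1 h
  refine ⟨?_, fun k hk => ?_⟩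
  · rcases (step0 P α e k₀ h1).2 with h3 | h3
    · omega
    · exact h3.1
  · have h3 := md_mono P α e hk
    exact (step0 P α e k (by omega)).1

theorem kk_const {e k₀ : ℕ} (h : trn P α e 0 k₀ = true) {k : ℕ} (hk : k₀ + 1 ≤ k)
    (h3 : md P α e k ≤ 3) : kk P α e k = kk P α e (k₀ + 1) := by
  obtain ⟨-, h2⟩ := trn_iff.1 h
  induction k, hk using Nat.le_induction with
  | base => rfl
  | succ k hk ih =>
    have h4 := md_mono P α e hk
    have h5 := md_mono P α e (Nat.le_succ k)
    simp only [Nat.succ_eq_add_one] at h5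
    rw [← ih (by omega)]
    have h6 : md P α e k = 1 ∨ md P α e k = 2 ∨ md P α e k = 3 := by omega
    rcases h6 with h6 | h6 | h6
    · exact (step1 P α e k h6).1
    · exact (step2 P α e k h6).1
    · exact (step3 P α e k h6).1

theorem trn_one {e k₀ s₂ : ℕ} (h0 : trn P α e 0 k₀ = true) (h : trn P α e 1 s₂ = true) :
    k₀ < s₂ ∧ 2 ^ s₂ < fk P α e (n1 e (kk P α e (k₀ + 1))) 0 0 0 s₂ ∧ s₂.unpair.1 = e ∧
      kk P α e (k₀ + 1) + 3 ≤ s₂ ∧ sa P α e (s₂ + 1) = s₂ ∧ num P α e s₂ = 0 := by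
  obtain ⟨h1, h2⟩ := trn_iff.1 h
  obtain ⟨h3, h4⟩ := trn_iff.1 h0
  have h5 : k₀ < s₂ := by
    by_contra hcon
    have := md_mono P α e (show s₂ ≤ k₀ by omega)
    omega
  have hs := (step1 P α e s₂ h1).2
  rw [kk_const h0 h5 (by omega)] at hs
  refine ⟨h5, ?_⟩
  unfold fk
  rcases hs with h6 | h6 | h6
  · have := h6.2.1; omega
  · exact ⟨h6.1, h6.2.1, h6.2.2.1, h6.2.2.2.2.1, h6.2.2.2.2.2⟩
  · have := h6.2.2.1; omega

theorem sa_const {e k₀ s₂ : ℕ} (h0 : trn P α e 0 k₀ = true) (h : trn P α e 1 s₂ = true) {k : ℕ}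
    (hk : s₂ + 1 ≤ k) (h3 : md P α e k ≤ 3) : sa P α e k = s₂ := by
  obtain ⟨-, h2⟩ := trn_iff.1 h
  induction k, hk using Nat.le_induction with
  | base => exact (trn_one h0 h).2.2.2.2.1
  | succ k hk ih =>
    have h4 := md_mono P α e hk
    have h5 := md_mono P α e (Nat.le_succ k)
    simp only [Nat.succ_eq_add_one] at h5
    rw [← ih (by omega)]
    have h6 : md P α e k = 2 ∨ md P α e k = 3 := by omega
    rcases h6 with h6 | h6
    · exact (step2 P α e k h6).2.1
    · exact (step3 P α e k h6).2.1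

theorem trn_two {e k₀ s₂ s₃ : ℕ} (h0 : trn P α e 0 k₀ = true) (h1 : trn P α e 1 s₂ = true)
    (h : trn P α e 2 s₃ = true) :
    s₂ < s₃ ∧ fz P (bt (α s₃)) e s₃ (hs P α e s₃) (n2 P s₂) = some (rf P α e (s₃ + 1)) ∧
      num P α e s₃ = 0 := by
  obtain ⟨h2, h3⟩ := trn_iff.1 h
  obtain ⟨h4, h5⟩ := trn_iff.1 h1
  have h6 : s₂ < s₃ := by
    by_contra hcon
    have := md_mono P α e (show s₃ ≤ s₂ by omega)
    omega
  obtain ⟨-, -, h7, h8⟩ := step2 P α e s₃ h2
  rw [sa_const h0 h1 h6 (by omega)] at h8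
  refine ⟨h6, ?_, h7⟩
  rcases h8 with h9 | h9
  · have := h9.2; omega
  · exact h9.1

theorem rf_const {e s₃ : ℕ} (h : trn P α e 2 s₃ = true) {k : ℕ}
    (hk : s₃ + 1 ≤ k) (h3 : md P α e k ≤ 3) : rf P α e k = rf P α e (s₃ + 1) := by
  obtain ⟨-, h2⟩ := trn_iff.1 h
  induction k, hk using Nat.le_induction with
  | base => rfl
  | succ k hk ih =>
    have h4 := md_mono P α e hk
    have h5 := md_mono P α e (Nat.le_succ k)
    simp only [Nat.succ_eq_add_one] at h5
    rw [← ih (by omega)]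
    exact (step3 P α e k (by omega)).2.2.1

theorem trn_three {e k₀ s₂ s₃ s₄ : ℕ} (h0 : trn P α e 0 k₀ = true)
    (h1 : trn P α e 1 s₂ = true) (h2 : trn P α e 2 s₃ = true) (h : trn P α e 3 s₄ = true) :
    s₃ < s₄ ∧ 2 ^ s₄ < fk P α e (n2 P s₂) 1 (rf P α e (s₃ + 1)) s₂ s₄ ∧
      num P α e s₄ = 2 ^ s₄ := by
  obtain ⟨h3, h4⟩ := trn_iff.1 h
  obtain ⟨h5, h6⟩ := trn_iff.1 h2
  have h7 : s₃ < s₄ := by
    by_contra hcon
    have := md_mono P α e (show s₄ ≤ s₃ by omega)
    omega
  have h8 := (trn_two h0 h1 h2).1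
  obtain ⟨-, -, -, h9⟩ := step3 P α e s₄ h3
  rw [sa_const h0 h1 (by omega) (by omega), rf_const h2 h7 (by omega)] at h9
  refine ⟨h7, ?_⟩
  unfold fk
  rcases h9 with h10 | h10
  · have := h10.2.1; omega
  · exact ⟨h10.1, h10.2.2⟩

/-- all passages before mode `j` happen at true stages -/
def Gd (A : ℕ → Bool) (P : Prm) (α : ℕ → List Bool) (e j : ℕ) : Prop :=
  ∀ i < j, ∀ k, trn P α e i k = true → Tr A α k

theorem chk_iff {k' k : ℕ} : chk α k' k = true ↔ ∀ n < k', bt (α k') n = bt (α k) n := by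
  unfold chk
  rw [List.all_eq_true]
  constructor
  · intro h n hn
    simpa using h n (List.mem_range.2 hn)
  · intro h n hn
    simpa using h n (List.mem_range.1 hn)

theorem evT_iff {e j k : ℕ} : evT P α e j k = true ↔ ∃ E ≤ k, E.unpair.1 = e ∧
    trn P α E j k = true ∧ ∀ k' < k, chk α k' k = true ∨ ∀ i < j, trn P α E i k' = false := by
  unfold evT
  rw [List.any_eq_true]
  constructor
  · rintro ⟨E, hE, h⟩
    rw [Bool.and_eq_true, decide_eq_true_eq, Bool.and_eq_true, List.all_eq_true] at h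
    refine ⟨E, by have := List.mem_range.1 hE; omega, h.1, h.2.1, fun k' hk' => ?_⟩
    have h1 := h.2.2 k' (List.mem_range.2 hk')
    rw [Bool.or_eq_true, List.all_eq_true] at h1
    rcases h1 with h1 | h1
    · exact Or.inl h1
    · right
      intro i hi
      simpa using h1 i (List.mem_range.2 hi)
  · rintro ⟨E, hE, h1, h2, h3⟩
    refine ⟨E, List.mem_range.2 (by omega), ?_⟩
    rw [Bool.and_eq_true, decide_eq_true_eq, Bool.and_eq_true, List.all_eq_true]
    refine ⟨h1, h2, fun k' hk' => ?_⟩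
    rw [Bool.or_eq_true, List.all_eq_true]
    rcases h3 k' (List.mem_range.1 hk') with h4 | h4
    · exact Or.inl h4
    · right
      intro i hi
      simpa using h4 i (List.mem_range.1 hi)

theorem trn_unique {e j k k' : ℕ} (h : trn P α e j k = true) (h' : trn P α e j k' = true) :
    k = k' := by
  obtain ⟨h1, h2⟩ := trn_iff.1 h
  obtain ⟨h3, h4⟩ := trn_iff.1 h'
  rcases Nat.lt_trichotomy k k' with h5 | h5 | h5
  · have := md_mono P α e (show k + 1 ≤ k' by omega)
    omega
  · exact h5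
  · have := md_mono P α e (show k' + 1 ≤ k by omega)
    omega

/-- one more passage at a true stage -/
theorem good_step (hA : Apx A (Evt P) α) {e j : ℕ} (hj : j < 4)
    (hpass : ∀ E, E.unpair.1 = e → Gd A P α E j → ∃ k, trn P α E j k = true)
    (h : ∀ K, ∃ E, E.unpair.1 = e ∧ Gd A P α E j ∧ md P α E K ≤ j) :
    ∀ K, ∃ E, E.unpair.1 = e ∧ Gd A P α E (j + 1) ∧ md P α E K ≤ j + 1 := by
  have hev : ∀ K, ∃ k ≥ K, evT P α e j k = true := by
    intro K
    obtain ⟨E, hE, hG, hm⟩ := h K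
    obtain ⟨k, hk⟩ := hpass E hE hG
    obtain ⟨h1, h2⟩ := trn_iff.1 hk
    have h3 : K ≤ k := by
      by_contra hcon
      have := md_mono P α E (show k + 1 ≤ K by omega)
      omega
    refine ⟨k, h3, evT_iff.2 ⟨E, ?_, hE, hk, ?_⟩⟩
    · have := md_pos (P := P) (α := α) (e := E) (k := k + 1) (by omega)
      omega
    · intro k' hk'
      by_cases h4 : ∀ i < j, trn P α E i k' = false
      · exact Or.inr h4
      · left
        push Not at h4
        obtain ⟨i, hi, h5⟩ := h4
        have h6 : trn P α E i k' = true := by simpa using h5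
        have h7 := hG i hi k' h6
        rw [chk_iff]
        intro n hn
        rw [hA.tr_le h7 hk'.le hn, h7 n hn]
  intro K
  obtain ⟨k, hk, h1, h2⟩ := low_evT hA hj hev K
  obtain ⟨E, -, hE, h3, h4⟩ := evT_iff.1 h1
  obtain ⟨h5, h6⟩ := trn_iff.1 h3
  refine ⟨E, hE, ?_, ?_⟩
  · intro i hi k' hk'
    rcases Nat.lt_or_ge i j with h7 | h7
    · obtain ⟨h8, h9⟩ := trn_iff.1 hk'
      have h10 : k' < k := by
        by_contra hcon
        have := md_mono P α E (show k ≤ k' by omega)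
        omega
      rcases h4 k' h10 with h11 | h11
      · intro n hn
        rw [chk_iff.1 h11 n hn]
        exact h2 n (by omega)
      · rw [h11 i h7] at hk'
        exact absurd hk' (by simp)
    · have h8 : i = j := by omega
      subst h8
      rw [trn_unique hk' h3]
      exact h2
  · have := md_mono P α E hk
    omega

end Pool.Agent.H938R3.TC
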