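import Pool.Agent.H938R3.TC.BFin
import Pool.Agent.H938R3.TC.BTrans

/-!
A region without isolated points: no homeomorphism between the two presentations is computable
with the low oracle together with its inverse.
-/

namespace Pool.Agent.H938R3.TC

open Filter Topology
open Pool.Agent.Helper583.TT
open Pool.Agent.Helper583.TC.J2 (srchO srchO_some srchO_ne valsO valsO_pre valsO_sound)

set_option linter.unusedSectionVars false

variable {Y : Type} [MetricSpace Y] [CompleteSpace Y] {c : ℕ → Y}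

namespace GeoA

variable (G : GeoA c) {h : G.N.Y ≃ₜ G.M.Y} {e : ℕ}

/-- mode zero is left -/
theorem pass0 (hf : RnS G.A G.N G.M h (fc e)) (hg : RnS G.A G.M G.N h.symm (gc e)) :
    ∃ k, trn G.P G.α e 0 k = true := by
  rcases pass_or (P := G.P) (α := G.α) (e := e) (j := 0) (k1 := 0) (by norm_num) rfl with h1 | h1
  · exfalso
    have h2 := fun k => step0 G.P G.α e k (h1 k (Nat.zero_le _))
    refine G.claim1 hf hg (fun k => (h2 k).1) (fun k => ?_)
    rcases (h2 k).2 with h3 | h3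
    · exact h3.1
    · have := h1 (k + 1) (Nat.zero_le _)
      omega
  · obtain ⟨k, -, hk⟩ := h1
    exact ⟨k, hk⟩

/-- mode one is left -/
theorem pass1 (hf : RnS G.A G.N G.M h (fc e)) {k₀ : ℕ} (h0 : trn G.P G.α e 0 k₀ = true) :
    ∃ k, trn G.P G.α e 1 k = true := by
  rcases pass_or (by norm_num) (trn_iff.1 h0).2 with h1 | h1
  · exfalso
    simp only [Nat.zero_add] at h1
    set K := kk G.P G.α e (k₀ + 1) with hK
    have hst : ∀ k ≥ k₀ + 1, num G.P G.α e k = fk G.P G.α e (n1 e K) 0 0 0 k - 1 ∧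
        (2 ^ k < fk G.P G.α e (n1 e K) 0 0 0 k → ¬(k.unpair.1 = e ∧ K + 3 ≤ k)) := by
      intro k hk
      have h2 := (step1 G.P G.α e k (h1 k hk)).2
      rw [kk_const h0 hk (by rw [h1 k hk]; norm_num), ← hK] at h2
      have h3 := h1 (k + 1) (by omega)
      have h4 := fk_le G.P G.α e (n1 e K) 0 0 0 k
      unfold fk at h4 ⊢
      rcases h2 with h5 | h5 | h5
      · exact ⟨h5.2.2, fun h6 => by omega⟩
      · have := h5.2.2.2.1; omega
      · exact ⟨by omega, fun _ => h5.2.1⟩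
    obtain ⟨g, hg⟩ := G.exists_nm e
    obtain ⟨q, -, -, hq2⟩ := G.com_w hf hg
    obtain ⟨l₀, hl₀⟩ := hq2 (n1 e K)
    have h2 := lim_cov G.ap (b := 0) (m₀ := 0) (s := 0) (fun k hk => (hst k hk).1) (G.hL e) hg
      (hl₀ l₀ le_rfl) (k2 := q (n1 e K) + 1) (fun k hk => by
        simp only [tst, if_true, decide_eq_true_eq]
        omega)
    obtain ⟨k3, hk3⟩ := eventually_atTop.1 h2
    set k := Nat.pair e (k3 + k₀ + K + 4) with hk
    have hbig : k3 + k₀ + K + 4 ≤ k := Nat.right_le_pair _ _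
    refine (hst k (by omega)).2 (hk3 k (by omega)) ⟨?_, by omega⟩
    rw [hk, Nat.unpair_pair]
  · obtain ⟨k, -, hk⟩ := h1
    exact ⟨k, hk⟩

/-- mode two is left -/
theorem pass2 (hf : RnS G.A G.N G.M h (fc e)) {k₀ s₂ : ℕ} (h0 : trn G.P G.α e 0 k₀ = true)
    (h1 : trn G.P G.α e 1 s₂ = true) : ∃ k, trn G.P G.α e 2 k = true := by
  rcases pass_or (by norm_num) (trn_iff.1 h1).2 with h2 | h2
  · exfalso
    simp only [Nat.reduceAdd] at h2
    have hst := fun k hk => step2 G.P G.α e k (h2 k hk)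
    have hL0 : G.L e = 0 := G.L_zero (k₀ := s₂ + 1) fun k hk => (hst k hk).2.2.1
    obtain ⟨g, hg⟩ := G.exists_nm e
    obtain ⟨q, -, -, hq2⟩ := G.com_w hf hg
    obtain ⟨l, hl⟩ := hq2 (n2 G.P s₂)
    have hl := hl l le_rfl
    obtain ⟨k3, hk3⟩ := G.ap.lim_lt l
    have hev : ∀ᶠ k in atTop, ∀ j ∈ Finset.range l, g j < k := by
      rw [eventually_all_finset]
      intro j _
      exact eventually_gt_atTop (g j)
    obtain ⟨k, hk1, hk2, hk4, hk5⟩ := ((eventually_ge_atTop (s₂ + 1)).and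
      ((eventually_gt_atTop (Encodable.encode (pre g l))).and
        (hev.and (eventually_ge_atTop k3)))).exists
    have hs' := (hst k hk1).2.2.2
    rw [sa_const h0 h1 hk1 (by rw [h2 k hk1]; norm_num)] at hs'
    have hnone : fz G.P (bt (G.α k)) e k (hs G.P G.α e k) (n2 G.P s₂) = none := by
      rcases hs' with h | h
      · exact h.1
      · have := h2 (k + 1) (by omega)
        omega
    have hcv : Cv G.P G.α e k (pre g l) (((0 : ℕ) : ℝ) / 2 ^ k) := by
      intro j hj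
      rw [preL_len] at hj
      rw [preL_get g l j hj]
      refine ⟨(hg j).1, hk4 j (Finset.mem_range.2 hj), ?_⟩
      rw [Nat.cast_zero, zero_div]
      have := (hg j).2
      rwa [hL0] at this
    have hcov := cov_of_cv hcv
    have hcom : com G.P (bt (G.α k)) e (pre g l) (n2 G.P s₂) = some (q (n2 G.P s₂)) := by
      rw [← hl]
      apply com_congr
      intro j hj
      rw [preL_len] at hj
      exact hk3 k hk5 j hj
    have hsome : (fun z => if cov e k (TC.hs G.P G.α e k) 0 (lst z) = true then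
        com G.P (bt (G.α k)) e (lst z) (n2 G.P s₂) else none) (Encodable.encode (pre g l)) =
          some (q (n2 G.P s₂)) := by
      show (if cov e k (TC.hs G.P G.α e k) 0 (lst (Encodable.encode (pre g l))) = true then
        com G.P (bt (G.α k)) e (lst (Encodable.encode (pre g l))) (n2 G.P s₂) else none) = _
      rw [lst_encode, if_pos hcov, hcom]
    obtain ⟨v, hv⟩ := srchO_ne (fun z => if cov e k (TC.hs G.P G.α e k) 0 (lst z) = true then
        com G.P (bt (G.α k)) e (lst z) (n2 G.P s₂) else none) k (Encodable.encode (pre g l))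
          (q (n2 G.P s₂)) hk2 hsome
    unfold fz at hnone
    rw [hnone] at hv
    exact absurd hv (by simp)
  · obtain ⟨k, -, hk⟩ := h2
    exact ⟨k, hk⟩

theorem cl_self (m s : ℕ) : G.P.cl m m s = true := by
  apply G.cl1
  rw [dist_self]
  positivity

/-- the action at a true stage -/
theorem pb_of_trn {k₀ s₂ : ℕ} (h0 : trn G.P G.α e 0 k₀ = true)
    (h1 : trn G.P G.α e 1 s₂ = true) (ht : Tr G.A G.α s₂) :
    G.PB e (kk G.P G.α e (k₀ + 1)) s₂ := by
  obtain ⟨h2, h3, h4, h5, h6, h7⟩ := trn_one h0 h1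
  refine ⟨?_, ?_⟩
  · rw [acts_iff]
    exact trn_iff.1 h1
  · intro x hx0 hx1
    obtain ⟨σ, m, h8, h9, h10, h11⟩ := cv_of_full h3 hx0 hx1
    refine ⟨σ, m, h9, ?_, ?_⟩
    · rw [← com_tr G.ap ht le_rfl h8]
      exact h10
    · simpa [tst] using h11

/-- mode three is left if the earlier passages happen at true stages -/
theorem pass3 (hf : RnS G.A G.N G.M h (fc e)) {k₀ s₂ s₃ : ℕ} (h0 : trn G.P G.α e 0 k₀ = true)
    (h1 : trn G.P G.α e 1 s₂ = true) (h2 : trn G.P G.α e 2 s₃ = true)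
    (t2 : Tr G.A G.α s₂) (t3 : Tr G.A G.α s₃) : ∃ k, trn G.P G.α e 3 k = true := by
  rcases pass_or (by norm_num) (trn_iff.1 h2).2 with h3 | h3
  · exfalso
    simp only [Nat.reduceAdd] at h3
    set m₀ := rf G.P G.α e (s₃ + 1) with hm₀
    obtain ⟨h23, hfz, hz3⟩ := trn_two h0 h1 h2
    rw [← hm₀] at hfz
    unfold fz at hfz
    obtain ⟨z, hz, hz2⟩ := srchO_some _ _ _ hfz
    have hz3' : cov e s₃ (hs G.P G.α e s₃) 0 (lst z) = true ∧
        com G.P (bt (G.α s₃)) e (lst z) (n2 G.P s₂) = some m₀ := by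
      by_cases hc : cov e s₃ (hs G.P G.α e s₃) 0 (lst z) = true
      · simp only [hc, if_true] at hz2
        exact ⟨hc, hz2⟩
      · simp only [hc] at hz2
        simp at hz2
    have hcomz : com G.P G.A e (lst z) (n2 G.P s₂) = some m₀ := by
      rw [← com_tr G.ap t3 le_rfl (le_trans (lst_length z) hz.le)]
      exact hz3'.2
    have hst : ∀ k ≥ s₃ + 1, fk G.P G.α e (n2 G.P s₂) 1 m₀ s₂ k ≤ 2 ^ k ∧
        num G.P G.α e k = fk G.P G.α e (n2 G.P s₂) 1 m₀ s₂ k - 1 := by
      intro k hk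
      obtain ⟨-, -, -, h4⟩ := step3 G.P G.α e k (h3 k hk)
      rw [sa_const h0 h1 (by omega) (by rw [h3 k hk]), rf_const h2 hk (by rw [h3 k hk])] at h4
      have h5 := h3 (k + 1) (by omega)
      unfold fk
      rcases h4 with h6 | h6
      · exact ⟨h6.1, h6.2.2⟩
      · have := h6.2.1; omega
    have hcov0 : ∀ k ≥ s₃, cov e k (hs G.P G.α e k) 0 (lst z) = true := by
      intro k hk
      induction k, hk using Nat.le_induction with
      | base => exact hz3'.1
      | succ k hk ih => exact (cov_succ (hs_restr G.P G.α e k) ih).1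
    refine G.claim4 hf (G.pb_of_trn h0 h1 t2) h23 hz3 ⟨lst z, ?_, hcomz⟩ ?_ ?_ (s₃ := s₃)
      (m₀ := m₀)
    · have := cv_of_cov hz3'.1
      rwa [Nat.cast_zero, zero_div] at this
    · rw [frequently_atTop]
      intro K
      obtain ⟨k, hk, ht⟩ := low_tr G.ap (max K (s₃ + 1))
      have hk1 : s₃ + 1 ≤ k := le_trans (le_max_right _ _) hk
      refine ⟨k, le_trans (le_max_left _ _) hk, ?_⟩
      obtain ⟨h4, h5⟩ := hst k hk1
      have hpos : 0 < fk G.P G.α e (n2 G.P s₂) 1 m₀ s₂ k := by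
        rw [Nat.pos_iff_ne_zero]
        intro h6
        have hsp := (fu_spec G.P (bt (G.α k)) e k (hs G.P G.α e k) (n2 G.P s₂) 1 m₀ s₂).2.1 h4
        have h6' : fu G.P (bt (G.α k)) e k (hs G.P G.α e k) (n2 G.P s₂) 1 m₀ s₂ = 0 := h6
        rw [h6'] at hsp
        have : cvd G.P (bt (G.α k)) e k (hs G.P G.α e k) (n2 G.P s₂) 1 m₀ s₂ 0 = true := by
          rw [cvd_iff]
          refine ⟨z, by omega, hcov0 k (by omega), m₀, ?_, ?_⟩
          · rw [com_tr G.ap t3 (by omega) (le_trans (lst_length z) hz.le)]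
            exact hcomz
          · simp only [tst, one_ne_zero, if_false]
            exact G.cl_self m₀ s₂
        rw [this] at hsp
        exact absurd hsp (by simp)
      have hc := (fu_spec G.P (bt (G.α k)) e k (hs G.P G.α e k) (n2 G.P s₂) 1 m₀ s₂).1
        (num G.P G.α e k) (by
          have : num G.P G.α e k < fk G.P G.α e (n2 G.P s₂) 1 m₀ s₂ k := by omega
          exact this)
      rw [cvd_iff] at hc
      obtain ⟨z', hz', hcov, m, hm, htst⟩ := hc
      refine ⟨lst z', m, cv_of_cov hcov, ?_, ?_⟩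
      · rw [← com_tr G.ap ht le_rfl (le_trans (lst_length z') hz'.le)]
        exact hm
      · simpa [tst] using htst
    · intro g hg l m hm
      by_contra hne
      have hne' : G.P.cl m m₀ s₂ = true := by simpa using hne
      have h4 := lim_cov G.ap (b := 1) (m₀ := m₀) (s := s₂) (fun k hk => (hst k hk).2) (G.hL e) hg
        hm (k2 := 0) (fun k _ => by
          simp only [tst, one_ne_zero, if_false]
          exact hne')
      obtain ⟨k, hk1, hk2⟩ := (h4.and (eventually_ge_atTop (s₃ + 1))).exists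
      have := (hst k hk2).1
      omega
  · obtain ⟨k, -, hk⟩ := h3
    exact ⟨k, hk⟩

/-- the two presentations are not homeomorphic with the oracle -/
theorem caseB (h1 : CompMapO G.A G.N G.M h) (h2 : CompMapO G.A G.M G.N h.symm) : False := by
  obtain ⟨f, hf0⟩ := rnS_of_comp h1
  obtain ⟨g, hg0⟩ := rnS_of_comp h2
  set e₀ := Nat.pair f g with he₀
  have hf : ∀ E : ℕ, E.unpair.1 = e₀ → RnS G.A G.N G.M h (fc E) := by
    intro E hE
    have : fc E = f := by unfold fc; rw [hE, he₀, Nat.unpair_pair]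
    rw [this]; exact hf0
  have hg : ∀ E : ℕ, E.unpair.1 = e₀ → RnS G.A G.M G.N h.symm (gc E) := by
    intro E hE
    have : gc E = g := by unfold gc; rw [hE, he₀, Nat.unpair_pair]
    rw [this]; exact hg0
  have s0 : ∀ K, ∃ E : ℕ, E.unpair.1 = e₀ ∧ Gd G.A G.P G.α E 0 ∧ md G.P G.α E K ≤ 0 := by
    intro K
    refine ⟨Nat.pair e₀ K, by rw [Nat.unpair_pair], fun i hi => absurd hi (Nat.not_lt_zero _), ?_⟩
    by_contra hcon
    have h3 := md_pos (P := G.P) (α := G.α) (e := Nat.pair e₀ K) (k := K) (by omega)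
    have h4 := Nat.right_le_pair e₀ K
    omega
  have s1 := good_step G.ap (j := 0) (by norm_num)
    (fun E hE _ => G.pass0 (hf E hE) (hg E hE)) s0
  have s2 := good_step G.ap (j := 1) (by norm_num)
    (fun E hE _ => by
      obtain ⟨k, hk⟩ := G.pass0 (hf E hE) (hg E hE)
      exact G.pass1 (hf E hE) hk) s1
  have s3 := good_step G.ap (j := 2) (by norm_num)
    (fun E hE _ => by
      obtain ⟨k, hk⟩ := G.pass0 (hf E hE) (hg E hE)
      obtain ⟨k', hk'⟩ := G.pass1 (hf E hE) hk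
      exact G.pass2 (hf E hE) hk hk') s2
  have s4 := good_step G.ap (j := 3) (by norm_num)
    (fun E hE hG => by
      obtain ⟨k, hk⟩ := G.pass0 (hf E hE) (hg E hE)
      obtain ⟨k', hk'⟩ := G.pass1 (hf E hE) hk
      obtain ⟨k'', hk''⟩ := G.pass2 (hf E hE) hk hk'
      exact G.pass3 (hf E hE) hk hk' hk'' (hG 1 (by norm_num) _ hk')
        (hG 2 (by norm_num) _ hk'')) s3
  obtain ⟨E, hE, hG, -⟩ := s4 0
  obtain ⟨k₀, t0⟩ := G.pass0 (hf E hE) (hg E hE)
  obtain ⟨s₂, t1⟩ := G.pass1 (hf E hE) t0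
  obtain ⟨s₃, t2⟩ := G.pass2 (hf E hE) t0 t1
  have r0 := hG 0 (by norm_num) _ t0
  have r1 := hG 1 (by norm_num) _ t1
  have r2 := hG 2 (by norm_num) _ t2
  obtain ⟨s₄, t3⟩ := G.pass3 (hf E hE) t0 t1 t2 r1 r2
  have r3 := hG 3 (by norm_num) _ t3
  obtain ⟨a1, a2⟩ := trn_zero t0
  obtain ⟨b1, b2, b3, b4, b5, b6⟩ := trn_one t0 t1
  obtain ⟨c1, c2, c3⟩ := trn_two t0 t1 t2
  obtain ⟨d1, d2, d3⟩ := trn_three t0 t1 t2 t3
  unfold fz at c2
  obtain ⟨z, hz, hz2⟩ := srchO_some _ _ _ c2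
  have hz3 : cov E s₃ (hs G.P G.α E s₃) 0 (lst z) = true ∧
      com G.P (bt (G.α s₃)) E (lst z) (n2 G.P s₂) = some (rf G.P G.α E (s₃ + 1)) := by
    by_cases hc : cov E s₃ (hs G.P G.α E s₃) 0 (lst z) = true
    · simp only [hc, if_true] at hz2
      exact ⟨hc, hz2⟩
    · simp only [hc] at hz2
      simp at hz2
  have hC : ∃ σ, Cv G.P G.α E s₃ σ 0 ∧
      com G.P G.A E σ (n2 G.P s₂) = some (rf G.P G.α E (s₃ + 1)) := by
    refine ⟨lst z, ?_, ?_⟩
    · have := cv_of_cov hz3.1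
      rwa [Nat.cast_zero, zero_div] at this
    · rw [← com_tr G.ap r2 le_rfl (le_trans (lst_length z) hz.le)]
      exact hz3.2
  have hD : ∃ σ m, Cv G.P G.α E s₄ σ 1 ∧ com G.P G.A E σ (n2 G.P s₂) = some m ∧
      G.P.cl m (rf G.P G.α E (s₃ + 1)) s₂ = true := by
    obtain ⟨σ, m, g1, g2, g3, g4⟩ := cv_of_full d2 zero_le_one le_rfl
    refine ⟨σ, m, g2, ?_, ?_⟩
    · rw [← com_tr G.ap r3 le_rfl g1]
      exact g3
    · simpa [tst] using g4
  exact G.claim5 (hf E hE) (hg E hE) r0 a1 a2 (G.pb_of_trn t0 t1 r1) b4 b1 c1 c3 hC d1 d3 hD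

end GeoA

end Pool.Agent.H938R3.TC
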