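import Pool.Agent.H938R3.TC.BStep
import Pool.Agent.Helper583.TTBComp

/-!
Computability of the strategies with an oracle.
-/

namespace Pool.Agent.H938R3.TC

open Nat.Partrec (Code)
open Pool.Agent.Helper583.TT
open Pool.Agent.Helper583.TC.J2 (srchO srchO_some srchO_ne srchO_succ primrec_srchO valsO
  valsO_succ primrec_valsO)

section aux

variable {α : Type} [Primcodable α]

theorem primrec_dcf {a : α → List Bool} {l : α → List ℕ} (ha : Primrec a) (hl : Primrec l) :
    Primrec fun x => dcf (bt (a x)) (l x) := by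
  unfold dcf bt
  refine Primrec.list_map (Primrec.list_range.comp (Primrec.list_length.comp hl)) ?_
  have h1 : Primrec fun p : α × ℕ => (l p.1).getD p.2 0 :=
    (Primrec.list_getD 0).comp (hl.comp Primrec.fst) Primrec.snd
  have h2 : Primrec fun p : α × ℕ => (a p.1).getD p.2 false :=
    (Primrec.list_getD false).comp (ha.comp Primrec.fst) Primrec.snd
  have h3 : Primrec fun p : α × ℕ => ((a p.1).getD p.2 false).toNat :=
    (Primrec.dom_bool Bool.toNat).comp h2
  exact Primrec₂.natPair.comp h1 h3

theorem primrec_fc : Primrec fc :=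
  Primrec.fst.comp (Primrec.unpair.comp (Primrec.fst.comp Primrec.unpair))

theorem primrec_gc : Primrec gc :=
  Primrec.snd.comp (Primrec.unpair.comp (Primrec.fst.comp Primrec.unpair))

/-- the value of the `z`-th word if it covers the grid point -/
def valO (P : Prm) (o : ℕ → Bool) (e k : ℕ) (H : List ℕ) (n i z : ℕ) : Option ℕ :=
  if cov e k H i (lst z) = true then com P o e (lst z) n else none

/-- the same with a table of values of `P.y` -/
def valT (T : List ℕ) (a : List Bool) (e k : ℕ) (H : List ℕ) (n i z : ℕ) : Option ℕ :=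
  bif cov e k H i (lst z) then rn (fc e) (dcf (bt a) ((lst z).map fun v => T.getD v 0)) n
  else none

theorem valO_eq (P : Prm) (a : List Bool) (e k : ℕ) (H : List ℕ) (n i z : ℕ) :
    valO P (bt a) e k H n i z = valT ((List.range k).map (P.y e)) a e k H n i z := by
  unfold valO valT
  cases hc : cov e k H i (lst z) with
  | false => simp
  | true =>
    simp only [if_true, cond_true]
    unfold com
    congr 2
    refine List.map_congr_left fun v hv => ?_
    obtain ⟨j, hj, rfl⟩ := List.getElem_of_mem hv
    unfold cov at hc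
    rw [List.all_eq_true] at hc
    have h1 := hc j (List.mem_range.2 hj)
    simp only [Bool.and_eq_true, decide_eq_true_eq] at h1
    have h2 := h1.1.2
    rw [List.getD_eq_getElem _ _ hj] at h2
    rw [List.getD_eq_getElem _ _ (by simpa using h2)]
    simp

theorem primrec_valT : Primrec fun q : List ℕ × List Bool × ℕ × ℕ × List ℕ × ℕ × ℕ × ℕ =>
    valT q.1 q.2.1 q.2.2.1 q.2.2.2.1 q.2.2.2.2.1 q.2.2.2.2.2.1 q.2.2.2.2.2.2.1
      q.2.2.2.2.2.2.2 := by
  unfold valT
  have hT : Primrec fun q : List ℕ × List Bool × ℕ × ℕ × List ℕ × ℕ × ℕ × ℕ => q.1 :=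
    Primrec.fst
  have s0 : Primrec fun q : List ℕ × List Bool × ℕ × ℕ × List ℕ × ℕ × ℕ × ℕ => q.2 :=
    Primrec.snd
  have ha := Primrec.fst.comp s0
  have s1 := Primrec.snd.comp s0
  have he := Primrec.fst.comp s1
  have s2 := Primrec.snd.comp s1
  have hk := Primrec.fst.comp s2
  have s3 := Primrec.snd.comp s2
  have hH := Primrec.fst.comp s3
  have s4 := Primrec.snd.comp s3
  have hn := Primrec.fst.comp s4
  have s5 := Primrec.snd.comp s4
  have hi := Primrec.fst.comp s5
  have hz := Primrec.snd.comp s5
  have hσ := primrec_lst.comp hz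
  refine Primrec.cond (primrec_cov.comp (he.pair (hk.pair (hH.pair (hi.pair hσ))))) ?_
    (Primrec.const none)
  refine primrec_rn (primrec_fc.comp he) ?_ hn
  refine primrec_dcf ha ?_
  refine Primrec.list_map hσ ?_
  exact ((Primrec.list_getD 0).comp (hT.comp Primrec.fst) Primrec.snd).to₂

variable {P : Prm}

theorem computable_valO (hy : Computable₂ P.y) {w : α → List Bool} {e k n i z : α → ℕ}
    {H : α → List ℕ} (hw : Computable w)
    (he : Computable e) (hk : Computable k) (hH : Computable H) (hn : Computable n)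
    (hi : Computable i) (hz : Computable z) :
    Computable fun a => valO P (bt (w a)) (e a) (k a) (H a) (n a) (i a) (z a) := by
  have hT : Computable fun a => (List.range (k a)).map (P.y (e a)) :=
    computable_rmap (f := fun a j => P.y (e a) j)
      (hy.comp (he.comp Computable.fst) Computable.snd).to₂ hk
  refine (primrec_valT.to_comp.comp
    (hT.pair (hw.pair (he.pair (hk.pair (hH.pair (hn.pair (hi.pair hz)))))))).of_eq
      fun a => ?_
  exact (valO_eq P _ _ _ _ _ _ _).symm

theorem cvd_eq (P : Prm) (o : ℕ → Bool) (e k : ℕ) (H : List ℕ) (n b m₀ s i : ℕ) :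
    cvd P o e k H n b m₀ s i = (List.range k).any fun z =>
      (Option.casesOn (valO P o e k H n i z) false fun m => tst P b k m₀ s m : Bool) := by
  unfold cvd
  congr 1
  funext z
  unfold valO
  cases hc : cov e k H i (lst z) with
  | false => simp
  | true =>
    simp only [Bool.true_and, if_true]
    cases com P o e (lst z) n <;> simp

theorem computable_cvd (hy : Computable₂ P.y)
    (hcl : Computable fun p : ℕ × ℕ × ℕ => P.cl p.1 p.2.1 p.2.2)
    {w : α → List Bool} {e k n b m₀ s i : α → ℕ} {H : α → List ℕ} (hw : Computable w)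
    (he : Computable e) (hk : Computable k) (hH : Computable H) (hn : Computable n)
    (hb : Computable b) (hm₀ : Computable m₀) (hs : Computable s) (hi : Computable i) :
    Computable fun a => cvd P (bt (w a)) (e a) (k a) (H a) (n a) (b a) (m₀ a) (s a) (i a) := by
  have hp : Computable₂ fun (a : α) (z : ℕ) =>
      (Option.casesOn (valO P (bt (w a)) (e a) (k a) (H a) (n a) (i a) z) false
        fun m => tst P (b a) (k a) (m₀ a) (s a) m : Bool) := by
    refine Computable.option_casesOn
      (o := fun p : α × ℕ => valO P (bt (w p.1)) (e p.1) (k p.1) (H p.1) (n p.1) (i p.1) p.2)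
      (f := fun _ => false) (g := fun p m => tst P (b p.1) (k p.1) (m₀ p.1) (s p.1) m)
      ?_ (Computable.const false) ?_
    · exact computable_valO hy (hw.comp Computable.fst) (he.comp Computable.fst)
        (hk.comp Computable.fst)
        (hH.comp Computable.fst) (hn.comp Computable.fst) (hi.comp Computable.fst) Computable.snd
    · exact computable_tst hcl (hb.comp (Computable.fst.comp Computable.fst))
        (hk.comp (Computable.fst.comp Computable.fst))
        (hm₀.comp (Computable.fst.comp Computable.fst))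
        (hs.comp (Computable.fst.comp Computable.fst)) Computable.snd
  exact (computable_any hp hk).of_eq fun a => (cvd_eq P _ _ _ _ _ _ _ _ _).symm

theorem computable_fu (hy : Computable₂ P.y)
    (hcl : Computable fun p : ℕ × ℕ × ℕ => P.cl p.1 p.2.1 p.2.2)
    {w : α → List Bool} {e k n b m₀ s : α → ℕ} {H : α → List ℕ} (hw : Computable w)
    (he : Computable e) (hk : Computable k) (hH : Computable H) (hn : Computable n)
    (hb : Computable b) (hm₀ : Computable m₀) (hs : Computable s) :
    Computable fun a => fu P (bt (w a)) (e a) (k a) (H a) (n a) (b a) (m₀ a) (s a) := by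
  have hN : Computable fun a => 2 ^ k a + 1 :=
    Computable.succ.comp (primrec_pow.to_comp.comp (Computable.const 2) hk)
  have c0 : Computable fun p : α × ℕ × ℕ => p.1 := Computable.fst
  have c1 : Computable fun p : α × ℕ × ℕ => p.2.1 := Computable.fst.comp Computable.snd
  have c2 : Computable fun p : α × ℕ × ℕ => p.2.2 := Computable.snd.comp Computable.snd
  have hc := computable_cvd hy hcl (hw.comp c0) (he.comp c0) (hk.comp c0) (hH.comp c0)
    (hn.comp c0) (hb.comp c0) (hm₀.comp c0) (hs.comp c0) c1
  have hq := Primrec.and.to_comp.comp (Primrec.eq.decide.to_comp.comp c2 c1) hc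
  have hh := Computable.cond hq (Computable.succ.comp c1) c2
  have h := Computable.nat_rec (f := fun a => 2 ^ k a + 1) (g := fun _ : α => (0 : ℕ))
    (h := fun a q => cond (decide (q.2 = q.1) &&
      cvd P (bt (w a)) (e a) (k a) (H a) (n a) (b a) (m₀ a) (s a) q.1) (q.1 + 1) q.2)
    hN (Computable.const 0) hh.to₂
  refine h.of_eq fun a => ?_
  unfold fu
  generalize 2 ^ k a + 1 = N
  induction N with
  | zero => rfl
  | succ j ih =>
    simp only [] at ih ⊢
    rw [ih]
    generalize (Nat.rec 0 (fun i u => if u = i ∧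
      cvd P (bt (w a)) (e a) (k a) (H a) (n a) (b a) (m₀ a) (s a) i = true then i + 1
        else u) j : ℕ) = u
    by_cases h1 : u = j <;>
      cases h2 : cvd P (bt (w a)) (e a) (k a) (H a) (n a) (b a) (m₀ a) (s a) j <;> simp [h1, h2]

theorem computable_fz (hy : Computable₂ P.y) {w : α → List Bool} {e k n : α → ℕ}
    {H : α → List ℕ} (hw : Computable w)
    (he : Computable e) (hk : Computable k) (hH : Computable H) (hn : Computable n) :
    Computable fun a => fz P (bt (w a)) (e a) (k a) (H a) (n a) := by
  have c0 : Computable fun p : α × ℕ × Option ℕ => p.1 := Computable.fst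
  have c1 : Computable fun p : α × ℕ × Option ℕ => p.2.1 := Computable.fst.comp Computable.snd
  have c2 : Computable fun p : α × ℕ × Option ℕ => p.2.2 := Computable.snd.comp Computable.snd
  have hv := computable_valO hy (hw.comp c0) (he.comp c0) (hk.comp c0) (hH.comp c0) (hn.comp c0)
    (Computable.const 0) c1
  have hh := Primrec.option_orElse.to_comp.comp c2 hv
  exact Computable.nat_rec (f := k) (g := fun _ : α => (none : Option ℕ))
    (h := fun a q => (q.2 <|> valO P (bt (w a)) (e a) (k a) (H a) (n a) 0 q.1))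
    hk (Computable.const none) hh.to₂

theorem computable_ev1 (hy : Computable₂ P.y)
    (hfr : Computable fun p : ℕ × ℕ × ℕ => P.fr p.1 p.2.1 p.2.2) {w : α → List Bool}
    {e k : α → ℕ} (hw : Computable w)
    (he : Computable e) (hk : Computable k) :
    Computable fun a => ev1 P (bt (w a)) (e a) (k a) := by
  have hk1 : Computable fun a => (k a).unpair.1 := Computable.fst.comp (Computable.unpair.comp hk)
  have hk2 : Computable fun a => (k a).unpair.2 := Computable.snd.comp (Computable.unpair.comp hk)
  have he1 : Computable fun a => fc (e a) := primrec_fc.to_comp.comp he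
  have he2 : Computable fun a => gc (e a) := primrec_gc.to_comp.comp he
  have hwd : Computable fun a => (List.range (k a).unpair.2).map (P.y (e a)) :=
    computable_rmap (f := fun a j => P.y (e a) j)
      (hy.comp (he.comp Computable.fst) Computable.snd).to₂ hk2
  have hV : Primrec fun q : ℕ × List Bool × List ℕ × ℕ =>
      valsO (rn q.1 (dcf (bt q.2.1) q.2.2.1)) (q.2.2.2 + 1) := by
    refine primrec_valsO (f := fun (q : ℕ × List Bool × List ℕ × ℕ) n =>
      rn q.1 (dcf (bt q.2.1) q.2.2.1) n) ?_
      (Primrec.succ.comp (Primrec.snd.comp (Primrec.snd.comp Primrec.snd)))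
    exact primrec_rn (Primrec.fst.comp Primrec.fst)
      (primrec_dcf (Primrec.fst.comp (Primrec.snd.comp Primrec.fst))
        (Primrec.fst.comp (Primrec.snd.comp (Primrec.snd.comp Primrec.fst)))) Primrec.snd
  have hR : Primrec fun q : ℕ × List Bool × List ℕ × ℕ => rn q.1 (dcf (bt q.2.1) q.2.2.1) q.2.2.2 :=
    primrec_rn Primrec.fst (primrec_dcf (Primrec.fst.comp Primrec.snd)
      (Primrec.fst.comp (Primrec.snd.comp Primrec.snd)))
      (Primrec.snd.comp (Primrec.snd.comp Primrec.snd))
  have hf1 : Computable fun a => valsO (rn (fc (e a)) (dcf (bt (w a))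
      ((List.range (k a).unpair.2).map (P.y (e a))))) ((k a).unpair.1 + 1) := by
    have h1 := he1.pair (hw.pair (hwd.pair hk1))
    have h2 := Computable.comp hV.to_comp h1
    exact h2
  have hf2 : Computable fun q : α × List ℕ => rn (gc (e q.1)) (dcf (bt (w q.1)) q.2.tail)
      (e q.1 + 2) := by
    have h0 : Computable fun q : α × List ℕ => e q.1 + 2 :=
      Computable.succ.comp (Computable.succ.comp (he.comp Computable.fst))
    have h3 : Computable fun q : α × List ℕ => q.2.tail :=
      Primrec.list_tail.to_comp.comp Computable.snd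
    have h4 : Computable fun q : α × List ℕ => gc (e q.1) := he2.comp Computable.fst
    have h5 : Computable fun q : α × List ℕ => w q.1 := hw.comp Computable.fst
    have h1 := h4.pair (h5.pair (h3.pair h0))
    have h2 := Computable.comp hR.to_comp h1
    exact h2
  have d0 : Computable fun q : (α × List ℕ) × ℕ => q.1.1 := Computable.fst.comp Computable.fst
  have d1 : Computable fun q : (α × List ℕ) × ℕ => q.2 := Computable.snd
  have h := Computable.cond
    (Primrec.and.to_comp.comp (hfr.comp ((he.comp d0).pair (d1.pair (hk.comp d0))))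
      (Primrec.nat_le.decide.to_comp.comp (he.comp d0) (hk.comp d0)))
    (Computable.option_some.comp (hk1.comp d0)) (Computable.const (none : Option ℕ))
  have hf3 : Computable₂ fun (q : α × List ℕ) (m : ℕ) =>
      if P.fr (e q.1) m (k q.1) = true ∧ e q.1 ≤ k q.1 then some (k q.1).unpair.1 else none := by
    refine h.of_eq fun q => ?_
    show (bif P.fr (e q.1.1) q.2 (k q.1.1) && decide (e q.1.1 ≤ k q.1.1) then
      some (Nat.unpair (k q.1.1)).1 else none) =
      if P.fr (e q.1.1) q.2 (k q.1.1) = true ∧ e q.1.1 ≤ k q.1.1 then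
        some (k q.1.1).unpair.1 else none
    by_cases hq : P.fr (e q.1.1) q.2 (k q.1.1) = true ∧ e q.1.1 ≤ k q.1.1
    · rw [if_pos hq, hq.1, decide_eq_true hq.2]
      rfl
    · rw [if_neg hq]
      by_cases h1 : P.fr (e q.1.1) q.2 (k q.1.1) = true
      · rw [decide_eq_false (fun h2 => hq ⟨h1, h2⟩), Bool.and_false]
        rfl
      · rw [Bool.not_eq_true] at h1
        rw [h1, Bool.false_and]
        rfl
  have hf4 : Computable₂ fun (a : α) (qs : List ℕ) =>
      (rn (gc (e a)) (dcf (bt (w a)) qs.tail) (e a + 2)).bind fun m =>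
        if P.fr (e a) m (k a) = true ∧ e a ≤ k a then some (k a).unpair.1 else none :=
    Computable.option_bind hf2 hf3
  exact Computable.option_bind hf1 hf4

end aux

/- ===== TARGETS ===== -/

theorem computable_stp (P : Prm) (hy : Computable₂ P.y)
    (hfr : Computable fun p : ℕ × ℕ × ℕ => P.fr p.1 p.2.1 p.2.2) (hell : Computable P.ell)
    (hcl : Computable fun p : ℕ × ℕ × ℕ => P.cl p.1 p.2.1 p.2.2) :
    Computable fun q : List Bool × ℕ × ℕ × St => stp P (bt q.1) q.2.1 q.2.2.1 q.2.2.2 := by
  have hw : Computable fun q : List Bool × ℕ × ℕ × St => q.1 := Computable.fst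
  have t1 : Computable fun q : List Bool × ℕ × ℕ × St => q.2 := Computable.snd
  have he : Computable fun q : List Bool × ℕ × ℕ × St => q.2.1 := Computable.fst.comp t1
  have t2 : Computable fun q : List Bool × ℕ × ℕ × St => q.2.2 := Computable.snd.comp t1
  have hk : Computable fun q : List Bool × ℕ × ℕ × St => q.2.2.1 := Computable.fst.comp t2
  have s0 : Computable fun q : List Bool × ℕ × ℕ × St => q.2.2.2 := Computable.snd.comp t2
  have hm : Computable fun q : List Bool × ℕ × ℕ × St => q.2.2.2.1 := Computable.fst.comp s0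
  have s1 : Computable fun q : List Bool × ℕ × ℕ × St => q.2.2.2.2 := Computable.snd.comp s0
  have hK : Computable fun q : List Bool × ℕ × ℕ × St => q.2.2.2.2.1 := Computable.fst.comp s1
  have s2 : Computable fun q : List Bool × ℕ × ℕ × St => q.2.2.2.2.2 := Computable.snd.comp s1
  have hs : Computable fun q : List Bool × ℕ × ℕ × St => q.2.2.2.2.2.1 := Computable.fst.comp s2
  have s3 : Computable fun q : List Bool × ℕ × ℕ × St => q.2.2.2.2.2.2 := Computable.snd.comp s2
  have hr : Computable fun q : List Bool × ℕ × ℕ × St => q.2.2.2.2.2.2.1 :=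
    Computable.fst.comp s3
  have hH : Computable fun q : List Bool × ℕ × ℕ × St => q.2.2.2.2.2.2.2 :=
    Computable.snd.comp s3
  have cc : ∀ n : ℕ, Computable fun _ : List Bool × ℕ × ℕ × St => n := fun n =>
    Computable.const n
  have hH0 : Computable fun q : List Bool × ℕ × ℕ × St => q.2.2.2.2.2.2.2 ++ [0] :=
    Computable.list_concat.comp hH (cc 0)
  have hp : Computable fun q : List Bool × ℕ × ℕ × St => 2 ^ q.2.2.1 :=
    primrec_pow.to_comp.comp (cc 2) hk
  have hHp : Computable fun q : List Bool × ℕ × ℕ × St => q.2.2.2.2.2.2.2 ++ [2 ^ q.2.2.1] :=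
    Computable.list_concat.comp hH hp
  have hn1 : Computable fun q : List Bool × ℕ × ℕ × St => n1 q.2.1 q.2.2.2.2.1 := by
    unfold n1
    exact Primrec.nat_add.to_comp.comp (Primrec.nat_add.to_comp.comp hK he) (cc 10)
  have hn2 : Computable fun q : List Bool × ℕ × ℕ × St => n2 P q.2.2.2.2.2.1 := by
    unfold n2
    exact Primrec.nat_add.to_comp.comp (hell.comp hs) (cc 5)
  have hfu1 := computable_fu hy hcl hw he hk hH hn1 (cc 0) (cc 0) (cc 0)
  have hfu3 := computable_fu hy hcl hw he hk hH hn2 (cc 1) hr hs
  have hfz := computable_fz hy hw he hk hH hn2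
  have hev := computable_ev1 hy hfr hw he hk
  -- the branches
  have hb0 : Computable fun q : List Bool × ℕ × ℕ × St =>
      (Option.casesOn (ev1 P (bt q.1) q.2.1 q.2.2.1) (0, 0, 0, 0, q.2.2.2.2.2.2.2 ++ [0])
        fun K => (1, K, 0, 0, q.2.2.2.2.2.2.2 ++ [0]) : St) := by
    refine Computable.option_casesOn hev
      ((cc 0).pair ((cc 0).pair ((cc 0).pair ((cc 0).pair hH0)))) ?_
    exact ((Computable.const 1).pair (Computable.snd.pair ((Computable.const 0).pair
      ((Computable.const 0).pair (hH0.comp Computable.fst))))).to₂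
  have hle1 := Primrec.nat_le.decide.to_comp.comp hfu1 hp
  have hle3 := Primrec.nat_le.decide.to_comp.comp hfu3 hp
  have hcnd : Computable fun q : List Bool × ℕ × ℕ × St =>
      (decide (q.2.2.1.unpair.1 = q.2.1) && decide (q.2.2.2.2.1 + 3 ≤ q.2.2.1)) :=
    Primrec.and.to_comp.comp
      (Primrec.eq.decide.to_comp.comp (Computable.fst.comp (Computable.unpair.comp hk)) he)
      (Primrec.nat_le.decide.to_comp.comp (Primrec.nat_add.to_comp.comp hK (cc 3)) hk)
  have hfu1' := Primrec.nat_sub.to_comp.comp hfu1 (cc 1)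
  have hfu3' := Primrec.nat_sub.to_comp.comp hfu3 (cc 1)
  have hb1 := Computable.cond hle1
    ((cc 1).pair (hK.pair ((cc 0).pair ((cc 0).pair
      (Computable.list_concat.comp hH hfu1')))))
    (Computable.cond hcnd
      ((cc 2).pair (hK.pair (hk.pair ((cc 0).pair hH0))))
      ((cc 1).pair (hK.pair ((cc 0).pair ((cc 0).pair hHp)))))
  have hb2 : Computable fun q : List Bool × ℕ × ℕ × St =>
      (Option.casesOn (fz P (bt q.1) q.2.1 q.2.2.1 q.2.2.2.2.2.2.2 (n2 P q.2.2.2.2.2.1))
        (2, q.2.2.2.2.1, q.2.2.2.2.2.1, 0, q.2.2.2.2.2.2.2 ++ [0])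
        fun m => (3, q.2.2.2.2.1, q.2.2.2.2.2.1, m, q.2.2.2.2.2.2.2 ++ [0]) : St) := by
    refine Computable.option_casesOn hfz
      ((cc 2).pair (hK.pair (hs.pair ((cc 0).pair hH0)))) ?_
    exact ((Computable.const 3).pair ((hK.comp Computable.fst).pair
      ((hs.comp Computable.fst).pair (Computable.snd.pair (hH0.comp Computable.fst))))).to₂
  have hb4 := (cc 4).pair (hK.pair (hs.pair (hr.pair hHp)))
  have hb3 := Computable.cond hle3
    ((cc 3).pair (hK.pair (hs.pair (hr.pair (Computable.list_concat.comp hH hfu3'))))) hb4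
  have heq : ∀ n : ℕ, Computable fun q : List Bool × ℕ × ℕ × St => decide (q.2.2.2.1 = n) :=
    fun n => Primrec.eq.decide.to_comp.comp hm (cc n)
  have hall := Computable.cond (heq 0) hb0 (Computable.cond (heq 1) hb1
    (Computable.cond (heq 2) hb2 (Computable.cond (heq 3) hb3 hb4)))
  refine hall.of_eq fun q => ?_
  unfold stp
  by_cases h0 : q.2.2.2.1 = 0
  · rw [decide_eq_true h0, cond_true, if_pos h0]
    cases ev1 P (bt q.1) q.2.1 q.2.2.1 <;> rfl
  rw [decide_eq_false h0, cond_false, if_neg h0]
  by_cases h1 : q.2.2.2.1 = 1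
  · rw [decide_eq_true h1, cond_true, if_pos h1]
    by_cases g1 : fu P (bt q.1) q.2.1 q.2.2.1 q.2.2.2.2.2.2.2 (n1 q.2.1 q.2.2.2.2.1) 0 0 0 ≤
        2 ^ q.2.2.1
    · rw [decide_eq_true g1, cond_true, if_pos g1]
    rw [decide_eq_false g1, cond_false, if_neg g1]
    by_cases g2 : q.2.2.1.unpair.1 = q.2.1
    · by_cases g3 : q.2.2.2.2.1 + 3 ≤ q.2.2.1
      · rw [decide_eq_true g2, decide_eq_true g3, if_pos ⟨g2, g3⟩]
        rfl
      · rw [decide_eq_false g3, Bool.and_false, cond_false, if_neg (fun h => g3 h.2)]
    · rw [decide_eq_false g2, Bool.false_and, cond_false, if_neg (fun h => g2 h.1)]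
  rw [decide_eq_false h1, cond_false, if_neg h1]
  by_cases h2 : q.2.2.2.1 = 2
  · rw [decide_eq_true h2, cond_true, if_pos h2]
    cases fz P (bt q.1) q.2.1 q.2.2.1 q.2.2.2.2.2.2.2 (n2 P q.2.2.2.2.2.1) <;> rfl
  rw [decide_eq_false h2, cond_false, if_neg h2]
  by_cases h3 : q.2.2.2.1 = 3
  · rw [decide_eq_true h3, cond_true, if_pos h3]
    by_cases g1 : fu P (bt q.1) q.2.1 q.2.2.1 q.2.2.2.2.2.2.2 (n2 P q.2.2.2.2.2.1) 1
        q.2.2.2.2.2.2.1 q.2.2.2.2.2.1 ≤ 2 ^ q.2.2.1
    · rw [decide_eq_true g1, cond_true, if_pos g1]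
    rw [decide_eq_false g1, cond_false, if_neg g1]
  rw [decide_eq_false h3, cond_false, if_neg h3]

/-- the states as a function of finite histories -/
theorem computable_stsL (P : Prm) (hy : Computable₂ P.y)
    (hfr : Computable fun p : ℕ × ℕ × ℕ => P.fr p.1 p.2.1 p.2.2) (hell : Computable P.ell)
    (hcl : Computable fun p : ℕ × ℕ × ℕ => P.cl p.1 p.2.1 p.2.2) :
    Computable fun q : List (List Bool) × ℕ × ℕ => sts P (bk q.1) q.2.1 q.2.2 := by
  have hL : Computable fun p : (List (List Bool) × ℕ × ℕ) × ℕ × St => p.1.1 :=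
    Computable.fst.comp Computable.fst
  have c0 : Computable fun p : (List (List Bool) × ℕ × ℕ) × ℕ × St => p.1.2.1 :=
    Computable.fst.comp (Computable.snd.comp Computable.fst)
  have c1 : Computable fun p : (List (List Bool) × ℕ × ℕ) × ℕ × St => p.2.1 :=
    Computable.fst.comp Computable.snd
  have c2 : Computable fun p : (List (List Bool) × ℕ × ℕ) × ℕ × St => p.2.2 :=
    Computable.snd.comp Computable.snd
  have hb : Computable fun p : (List (List Bool) × ℕ × ℕ) × ℕ × St => bk p.1.1 p.2.1 := by
    unfold bk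
    exact (Primrec.list_getD []).to_comp.comp (Primrec.list_reverse.to_comp.comp hL) c1
  have hh := Computable.comp (computable_stp P hy hfr hell hcl) (hb.pair (c0.pair (c1.pair c2)))
  have h := Computable.nat_rec (f := fun a : List (List Bool) × ℕ × ℕ => a.2.2)
    (g := fun _ : List (List Bool) × ℕ × ℕ => ((0, 0, 0, 0, []) : St))
    (h := fun a q => stp P (bt (bk a.1 q.1)) a.2.1 q.1 q.2)
    (Computable.snd.comp Computable.snd) (Computable.const _) hh.to₂
  exact h

/-- the states along a computable approximation -/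
theorem computable_sts (P : Prm) (hy : Computable₂ P.y)
    (hfr : Computable fun p : ℕ × ℕ × ℕ => P.fr p.1 p.2.1 p.2.2) (hell : Computable P.ell)
    (hcl : Computable fun p : ℕ × ℕ × ℕ => P.cl p.1 p.2.1 p.2.2) {β : ℕ → List Bool}
    (hβ : Computable β) : Computable₂ (sts P β) := by
  have c0 : Computable fun p : (ℕ × ℕ) × ℕ × St => p.1.1 := Computable.fst.comp Computable.fst
  have c1 : Computable fun p : (ℕ × ℕ) × ℕ × St => p.2.1 := Computable.fst.comp Computable.snd
  have c2 : Computable fun p : (ℕ × ℕ) × ℕ × St => p.2.2 := Computable.snd.comp Computable.snd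
  have hh := Computable.comp (computable_stp P hy hfr hell hcl)
    ((hβ.comp c1).pair (c0.pair (c1.pair c2)))
  have h := Computable.nat_rec (f := fun a : ℕ × ℕ => a.2)
    (g := fun _ : ℕ × ℕ => ((0, 0, 0, 0, []) : St))
    (h := fun a q => stp P (bt (β q.1)) a.1 q.1 q.2) Computable.snd (Computable.const _) hh.to₂
  exact h

theorem computable_num (P : Prm) {β : ℕ → List Bool} (h : Computable₂ (sts P β)) :
    Computable₂ (num P β) := by
  have h1 : Computable fun p : ℕ × ℕ => sts P β p.1 (p.2 + 1) :=
    h.comp Computable.fst (Computable.succ.comp Computable.snd)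
  have h2 : Computable fun p : ℕ × ℕ => (sts P β p.1 (p.2 + 1)).2.2.2.2 :=
    Computable.snd.comp (Computable.snd.comp (Computable.snd.comp (Computable.snd.comp h1)))
  exact ((Primrec.list_getD 0).to_comp.comp h2 Computable.snd).to₂

theorem computable_acts (P : Prm) {β : ℕ → List Bool} (h : Computable₂ (sts P β)) :
    Computable₂ (acts P β) := by
  have h1 : Computable fun p : ℕ × ℕ => sts P β p.1 (p.2 + 1) :=
    h.comp Computable.fst (Computable.succ.comp Computable.snd)
  have h0 : Computable fun p : ℕ × ℕ => sts P β p.1 p.2 := h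
  exact (Primrec.and.to_comp.comp
    (Primrec.eq.decide.to_comp.comp (Computable.fst.comp h0) (Computable.const 1))
    (Primrec.eq.decide.to_comp.comp (Computable.fst.comp h1) (Computable.const 2))).to₂

end Pool.Agent.H938R3.TC
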