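import Pool.Agent.H938R3.TC.Run
import Pool.Agent.Helper583.TTBCov

/-!
A region without isolated points: the strategies with a low oracle.
-/

namespace Pool.Agent.H938R3.TC

open Pool.Agent.Helper583.TT
open Pool.Agent.Helper583.TC.J2 (srchO srchO_some srchO_ne srchO_succ primrec_srchO valsO
  valsO_succ primrec_valsO)

/-- the two programs of the strategy `e` -/
def fc (e : ℕ) : ℕ := e.unpair.1.unpair.1
def gc (e : ℕ) : ℕ := e.unpair.1.unpair.2

/-- value committed by the word `σ` with the oracle bits `o` -/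
def com (P : Prm) (o : ℕ → Bool) (e : ℕ) (σ : List ℕ) (n : ℕ) : Option ℕ :=
  rn (fc e) (dcf o (σ.map (P.y e))) n

/-- the grid point `i / 2 ^ k` is covered by a word with a good value -/
def cvd (P : Prm) (o : ℕ → Bool) (e k : ℕ) (H : List ℕ) (n b m₀ s i : ℕ) : Bool :=
  (List.range k).any fun z => cov e k H i (lst z) &&
    ((com P o e (lst z) n).any fun m => tst P b k m₀ s m)

/-- number of the first grid point which is not covered -/
def fu (P : Prm) (o : ℕ → Bool) (e k : ℕ) (H : List ℕ) (n b m₀ s : ℕ) : ℕ :=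
  Nat.rec 0 (fun i u => if u = i ∧ cvd P o e k H n b m₀ s i = true then i + 1 else u) (2 ^ k + 1)

/-- first value committed at position zero -/
def fz (P : Prm) (o : ℕ → Bool) (e k : ℕ) (H : List ℕ) (n : ℕ) : Option ℕ :=
  srchO (fun z => if cov e k H 0 (lst z) = true then com P o e (lst z) n else none) k

/-- the event of mode zero -/
def ev1 (P : Prm) (o : ℕ → Bool) (e k : ℕ) : Option ℕ :=
  (valsO (rn (fc e) (dcf o ((List.range k.unpair.2).map (P.y e)))) (k.unpair.1 + 1)).bind fun qs =>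
    (rn (gc e) (dcf o qs.tail) (e + 2)).bind fun m =>
      if P.fr e m k = true ∧ e ≤ k then some k.unpair.1 else none

/-- one step -/
def stp (P : Prm) (o : ℕ → Bool) (e k : ℕ) (s : St) : St :=
  if s.1 = 0 then
    match ev1 P o e k with
    | none => (0, 0, 0, 0, s.2.2.2.2 ++ [0])
    | some K => (1, K, 0, 0, s.2.2.2.2 ++ [0])
  else if s.1 = 1 then
    if fu P o e k s.2.2.2.2 (n1 e s.2.1) 0 0 0 ≤ 2 ^ k then
      (1, s.2.1, 0, 0, s.2.2.2.2 ++ [fu P o e k s.2.2.2.2 (n1 e s.2.1) 0 0 0 - 1])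
    else if k.unpair.1 = e ∧ s.2.1 + 3 ≤ k then (2, s.2.1, k, 0, s.2.2.2.2 ++ [0])
    else (1, s.2.1, 0, 0, s.2.2.2.2 ++ [2 ^ k])
  else if s.1 = 2 then
    match fz P o e k s.2.2.2.2 (n2 P s.2.2.1) with
    | none => (2, s.2.1, s.2.2.1, 0, s.2.2.2.2 ++ [0])
    | some m => (3, s.2.1, s.2.2.1, m, s.2.2.2.2 ++ [0])
  else if s.1 = 3 then
    if fu P o e k s.2.2.2.2 (n2 P s.2.2.1) 1 s.2.2.2.1 s.2.2.1 ≤ 2 ^ k then
      (3, s.2.1, s.2.2.1, s.2.2.2.1,
        s.2.2.2.2 ++ [fu P o e k s.2.2.2.2 (n2 P s.2.2.1) 1 s.2.2.2.1 s.2.2.1 - 1])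
    else (4, s.2.1, s.2.2.1, s.2.2.2.1, s.2.2.2.2 ++ [2 ^ k])
  else (4, s.2.1, s.2.2.1, s.2.2.2.1, s.2.2.2.2 ++ [2 ^ k])

/-- the states -/
def sts (P : Prm) (α : ℕ → List Bool) (e : ℕ) (k : ℕ) : St :=
  Nat.rec (0, 0, 0, 0, []) (fun k s => stp P (bt (α k)) e k s) k

/-- numerator of the `k`-th position -/
def num (P : Prm) (α : ℕ → List Bool) (e k : ℕ) : ℕ := (sts P α e (k + 1)).2.2.2.2.getD k 0

/-- the action takes place at stage `k` -/
def acts (P : Prm) (α : ℕ → List Bool) (e k : ℕ) : Bool :=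
  decide ((sts P α e k).1 = 1) && decide ((sts P α e (k + 1)).1 = 2)

/-- transition from mode `j` to mode `j + 1` -/
def trn (P : Prm) (α : ℕ → List Bool) (e j k : ℕ) : Bool :=
  decide ((sts P α e k).1 = j) && decide ((sts P α e (k + 1)).1 = j + 1)

/-- the bits below `k'` are the same at the stages `k'` and `k` -/
def chk (α : ℕ → List Bool) (k' k : ℕ) : Bool :=
  (List.range k').all fun n => bt (α k') n == bt (α k) n

/-- a strategy for the pair `e` of programs passes from mode `j` to mode `j + 1` at stage `k`;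
the earlier passages look true -/
def evT (P : Prm) (α : ℕ → List Bool) (e j k : ℕ) : Bool :=
  (List.range (k + 1)).any fun E => decide (E.unpair.1 = e) && (trn P α E j k &&
    (List.range k).all fun k' => chk α k' k || (List.range j).all fun i => !trn P α E i k')

/-- the position is above `B / 2 ^ q` -/
def evC (P : Prm) (α : ℕ → List Bool) (e B q k : ℕ) : Bool :=
  decide (B * 2 ^ k < num P α e k * 2 ^ q)

/-- entries of a list counted from the end -/
def bk (L : List (List Bool)) (j : ℕ) : List Bool := L.reverse.getD j []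

/-- the processes -/
def Evt (P : Prm) (c : ℕ) (L : List (List Bool)) : Bool :=
  decide (c.unpair.1 < L.length) &&
    (bif decide (c.unpair.2.unpair.1 < 4) then
      evT P (bk L) c.unpair.2.unpair.2 c.unpair.2.unpair.1 (L.length - 1)
    else bif decide (c.unpair.2.unpair.1 = 4) then
      evC P (bk L) c.unpair.2.unpair.2.unpair.1 c.unpair.2.unpair.2.unpair.2.unpair.1
        c.unpair.2.unpair.2.unpair.2.unpair.2 (L.length - 1)
    else true)

/- ===== basic facts ===== -/

theorem sts_succ (P : Prm) (α : ℕ → List Bool) (e k : ℕ) :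
    sts P α e (k + 1) = stp P (bt (α k)) e k (sts P α e k) := rfl

theorem sts_congr (P : Prm) {α β : ℕ → List Bool} (e : ℕ) {k : ℕ} (h : ∀ j < k, α j = β j) :
    sts P α e k = sts P β e k := by
  induction k with
  | zero => rfl
  | succ k ih => rw [sts_succ, sts_succ, ih fun j hj => h j (by omega), h k (by omega)]

theorem num_congr (P : Prm) {α β : ℕ → List Bool} (e : ℕ) {k : ℕ} (h : ∀ j < k + 1, α j = β j) :
    num P α e k = num P β e k := by
  unfold num
  rw [sts_congr P e h]

theorem trn_congr (P : Prm) {α β : ℕ → List Bool} (e j : ℕ) {k : ℕ} (h : ∀ j < k + 1, α j = β j) :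
    trn P α e j k = trn P β e j k := by
  unfold trn
  rw [sts_congr P e h, sts_congr P e (k := k) fun i hi => h i (by omega)]

theorem chk_congr {α β : ℕ → List Bool} {k' k : ℕ} (h' : α k' = β k') (h : α k = β k) :
    chk α k' k = chk β k' k := by
  unfold chk
  rw [h, h']

theorem all_congr' {p q : ℕ → Bool} {n : ℕ} (h : ∀ i < n, p i = q i) :
    (List.range n).all p = (List.range n).all q := by
  rw [Bool.eq_iff_iff, List.all_eq_true, List.all_eq_true]
  constructor
  · intro h1 i hi
    rw [← h i (List.mem_range.1 hi)]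
    exact h1 i hi
  · intro h1 i hi
    rw [h i (List.mem_range.1 hi)]
    exact h1 i hi

theorem any_congr' {p q : ℕ → Bool} {n : ℕ} (h : ∀ i < n, p i = q i) :
    (List.range n).any p = (List.range n).any q := by
  rw [Bool.eq_iff_iff, List.any_eq_true, List.any_eq_true]
  constructor
  · rintro ⟨i, hi, h1⟩
    exact ⟨i, hi, by rw [← h i (List.mem_range.1 hi)]; exact h1⟩
  · rintro ⟨i, hi, h1⟩
    exact ⟨i, hi, by rw [h i (List.mem_range.1 hi)]; exact h1⟩

theorem evT_congr (P : Prm) {α β : ℕ → List Bool} (e j : ℕ) {k : ℕ}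
    (h : ∀ j < k + 1, α j = β j) : evT P α e j k = evT P β e j k := by
  unfold evT
  apply any_congr'
  intro E _
  rw [trn_congr P E j h]
  congr 2
  apply all_congr'
  intro k' hk'
  rw [chk_congr (h k' (by omega)) (h k (by omega))]
  congr 1
  apply all_congr'
  intro i _
  rw [trn_congr P E i (k := k') fun i hi => h i (by omega)]

theorem evC_congr (P : Prm) {α β : ℕ → List Bool} (e B q : ℕ) {k : ℕ}
    (h : ∀ j < k + 1, α j = β j) : evC P α e B q k = evC P β e B q k := by
  unfold evC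
  rw [num_congr P e h]

theorem hst_length (α : ℕ → List Bool) (k : ℕ) : (hst α k).length = k := by
  induction k with
  | zero => rfl
  | succ k ih => simp [hst, ih]

theorem hst_reverse (α : ℕ → List Bool) (k : ℕ) : (hst α k).reverse = (List.range k).map α := by
  induction k with
  | zero => rfl
  | succ k ih => simp [hst, ih, List.range_succ]

theorem bk_hst (α : ℕ → List Bool) {j k : ℕ} (h : j < k) : bk (hst α k) j = α j := by
  unfold bk
  rw [hst_reverse]
  simp [List.getD_eq_getElem?_getD, h]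

/-- processes firing infinitely often fire infinitely often at true stages -/
theorem low_evT {P : Prm} {A : ℕ → Bool} {α : ℕ → List Bool} (hA : Apx A (Evt P) α) {e j : ℕ}
    (hj : j < 4) (h : ∀ K, ∃ k ≥ K, evT P α e j k = true) (K : ℕ) :
    ∃ k ≥ K, evT P α e j k = true ∧ Tr A α k := by
  have key : ∀ k, Evt P (Nat.pair K (Nat.pair j e)) (hst α (k + 1)) = true ↔
      K ≤ k ∧ evT P α e j k = true := by
    intro k
    unfold Evt
    simp only [Nat.unpair_pair, hst_length, Nat.add_sub_cancel]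
    rw [decide_eq_true hj, cond_true, Bool.and_eq_true, decide_eq_true_eq,
      evT_congr P (α := bk (hst α (k + 1))) (β := α) e j fun i hi => bk_hst α hi]
    constructor
    · rintro ⟨h1, h2⟩; exact ⟨by omega, h2⟩
    · rintro ⟨h1, h2⟩; exact ⟨by omega, h2⟩
  obtain ⟨k, hk, hk2⟩ := hA.low (Nat.pair K (Nat.pair j e)) (fun K' => by
    obtain ⟨k, hk, hk2⟩ := h (max K K')
    exact ⟨k, le_trans (le_max_right _ _) hk, (key k).2 ⟨le_trans (le_max_left _ _) hk, hk2⟩⟩)
  exact ⟨k, ((key k).1 hk).1, ((key k).1 hk).2, hk2⟩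

theorem low_evC {P : Prm} {A : ℕ → Bool} {α : ℕ → List Bool} (hA : Apx A (Evt P) α) {e B q : ℕ}
    (h : ∀ K, ∃ k ≥ K, evC P α e B q k = true) (K : ℕ) :
    ∃ k ≥ K, evC P α e B q k = true ∧ Tr A α k := by
  have key : ∀ k, Evt P (Nat.pair K (Nat.pair 4 (Nat.pair e (Nat.pair B q)))) (hst α (k + 1)) =
      true ↔ K ≤ k ∧ evC P α e B q k = true := by
    intro k
    unfold Evt
    simp only [Nat.unpair_pair, hst_length, Nat.add_sub_cancel]
    rw [show decide ((4 : ℕ) < 4) = false from rfl, cond_false, decide_true, cond_true,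
      Bool.and_eq_true, decide_eq_true_eq,
      evC_congr P (α := bk (hst α (k + 1))) (β := α) e B q fun i hi => bk_hst α hi]
    constructor
    · rintro ⟨h1, h2⟩; exact ⟨by omega, h2⟩
    · rintro ⟨h1, h2⟩; exact ⟨by omega, h2⟩
  obtain ⟨k, hk, hk2⟩ := hA.low (Nat.pair K (Nat.pair 4 (Nat.pair e (Nat.pair B q))))
    (fun K' => by
      obtain ⟨k, hk, hk2⟩ := h (max K K')
      exact ⟨k, le_trans (le_max_right _ _) hk, (key k).2 ⟨le_trans (le_max_left _ _) hk, hk2⟩⟩)
  exact ⟨k, ((key k).1 hk).1, ((key k).1 hk).2, hk2⟩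

theorem low_tr {P : Prm} {A : ℕ → Bool} {α : ℕ → List Bool} (hA : Apx A (Evt P) α) (K : ℕ) :
    ∃ k ≥ K, Tr A α k := by
  have key : ∀ k, Evt P (Nat.pair K (Nat.pair 5 0)) (hst α (k + 1)) = true ↔ K ≤ k := by
    intro k
    unfold Evt
    simp only [Nat.unpair_pair, hst_length, Nat.add_sub_cancel]
    rw [show decide ((5 : ℕ) < 4) = false from rfl, cond_false,
      show decide ((5 : ℕ) = 4) = false from rfl, cond_false, Bool.and_true, decide_eq_true_eq]
    omega
  obtain ⟨k, hk, hk2⟩ := hA.low (Nat.pair K (Nat.pair 5 0))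
    (fun K' => ⟨max K K', le_max_right _ _, (key _).2 (le_max_left _ _)⟩)
  exact ⟨k, (key k).1 hk, hk2⟩

end Pool.Agent.H938R3.TC
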