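import Pool.Agent.H938R3.TC.BComp

/-!
Computability of the processes.
-/

namespace Pool.Agent.H938R3.TC

open Pool.Agent.Helper583.TT

section aux

attribute [local irreducible] sts

variable {α : Type} [Primcodable α]

theorem computable_all {p : α → ℕ → Bool} (hp : Computable₂ p) {n : α → ℕ} (hn : Computable n) :
    Computable fun a => (List.range (n a)).all (p a) := by
  have h1 : Computable₂ fun (a : α) (k : ℕ) => !(p a k) := Primrec.not.to_comp.comp₂ hp
  refine (Primrec.not.to_comp.comp (computable_any h1 hn)).of_eq fun a => ?_
  rw [List.not_any_eq_all_not]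
  simp

theorem computable_bk {L : α → List (List Bool)} {j : α → ℕ} (hL : Computable L)
    (hj : Computable j) : Computable fun a => bk (L a) (j a) := by
  unfold bk
  exact (Primrec.list_getD []).to_comp.comp (Primrec.list_reverse.to_comp.comp hL) hj

theorem computable_bt {l : α → List Bool} {j : α → ℕ} (hl : Computable l)
    (hj : Computable j) : Computable fun a => bt (l a) (j a) := by
  unfold bt
  exact (Primrec.list_getD false).to_comp.comp hl hj

theorem computable_chk {L : α → List (List Bool)} {k' k : α → ℕ} (hL : Computable L)
    (hk' : Computable k') (hk : Computable k) :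
    Computable fun a => chk (bk (L a)) (k' a) (k a) := by
  unfold chk
  refine computable_all ?_ hk'
  have h1 : Computable fun p : α × ℕ => bt (bk (L p.1) (k' p.1)) p.2 :=
    computable_bt (computable_bk (hL.comp Computable.fst) (hk'.comp Computable.fst))
      Computable.snd
  have h2 : Computable fun p : α × ℕ => bt (bk (L p.1) (k p.1)) p.2 :=
    computable_bt (computable_bk (hL.comp Computable.fst) (hk.comp Computable.fst))
      Computable.snd
  exact (Primrec.beq.to_comp.comp h1 h2).to₂

variable {P : Prm}

theorem computable_deceq {f g : α → ℕ} (hf : Computable f) (hg : Computable g) :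
    Computable fun a => decide (f a = g a) :=
  Primrec.eq.decide.to_comp.comp hf hg

theorem computable_and {f g : α → Bool} (hf : Computable f) (hg : Computable g) :
    Computable fun a => f a && g a :=
  Primrec.and.to_comp.comp hf hg

theorem computable_trn
    (hs : Computable fun q : List (List Bool) × ℕ × ℕ => sts P (bk q.1) q.2.1 q.2.2)
    {L : α → List (List Bool)} {E j k : α → ℕ} (hL : Computable L)
    (hE : Computable E) (hj : Computable j) (hk : Computable k) :
    Computable fun a => trn P (bk (L a)) (E a) (j a) (k a) := by
  unfold trn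
  have g1 : Computable fun a => (L a, E a, k a) := hL.pair (hE.pair hk)
  have g2 : Computable fun a => (L a, E a, k a + 1) :=
    hL.pair (hE.pair (Computable.succ.comp hk))
  have g3 : Computable fun a => sts P (bk (L a)) (E a) (k a) := Computable.comp hs g1
  have g4 : Computable fun a => sts P (bk (L a)) (E a) (k a + 1) := Computable.comp hs g2
  have h1 : Computable fun a => (sts P (bk (L a)) (E a) (k a)).1 := Computable.fst.comp g3
  have h2 : Computable fun a => (sts P (bk (L a)) (E a) (k a + 1)).1 := Computable.fst.comp g4
  have hj1 : Computable fun a => j a + 1 := Computable.succ.comp hj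
  exact computable_and (computable_deceq h1 hj) (computable_deceq h2 hj1)

theorem computable_evT
    (hs : Computable fun q : List (List Bool) × ℕ × ℕ => sts P (bk q.1) q.2.1 q.2.2)
    {L : α → List (List Bool)} {e j k : α → ℕ} (hL : Computable L)
    (he : Computable e) (hj : Computable j) (hk : Computable k) :
    Computable fun a => evT P (bk (L a)) (e a) (j a) (k a) := by
  unfold evT
  refine computable_any ?_ (Computable.succ.comp hk)
  have c0 : Computable fun p : α × ℕ => p.1 := Computable.fst
  have c1 : Computable fun p : α × ℕ => p.2 := Computable.snd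
  have h1 : Computable fun p : α × ℕ => decide (p.2.unpair.1 = e p.1) :=
    Primrec.eq.decide.to_comp.comp (Computable.fst.comp (Computable.unpair.comp c1))
      (he.comp c0)
  have h2 : Computable fun p : α × ℕ => trn P (bk (L p.1)) p.2 (j p.1) (k p.1) :=
    computable_trn hs (hL.comp c0) c1 (hj.comp c0) (hk.comp c0)
  have h3 : Computable fun p : α × ℕ => (List.range (k p.1)).all fun k' =>
      chk (bk (L p.1)) k' (k p.1) || (List.range (j p.1)).all fun i =>
        !trn P (bk (L p.1)) p.2 i k' := by
    refine computable_all ?_ (hk.comp c0)
    have d0 : Computable fun p : (α × ℕ) × ℕ => p.1.1 := Computable.fst.comp Computable.fst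
    have d1 : Computable fun p : (α × ℕ) × ℕ => p.1.2 := Computable.snd.comp Computable.fst
    have d2 : Computable fun p : (α × ℕ) × ℕ => p.2 := Computable.snd
    have h4 : Computable fun p : (α × ℕ) × ℕ => chk (bk (L p.1.1)) p.2 (k p.1.1) :=
      computable_chk (hL.comp d0) d2 (hk.comp d0)
    have h5 : Computable fun p : (α × ℕ) × ℕ => (List.range (j p.1.1)).all fun i =>
        !trn P (bk (L p.1.1)) p.1.2 i p.2 := by
      refine computable_all ?_ (hj.comp d0)
      have f0 : Computable fun p : ((α × ℕ) × ℕ) × ℕ => p.1 := Computable.fst
      have f1 : Computable fun p : ((α × ℕ) × ℕ) × ℕ => p.2 := Computable.snd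
      exact (Primrec.not.to_comp.comp (computable_trn hs (hL.comp (d0.comp f0)) (d1.comp f0)
        f1 (d2.comp f0))).to₂
    exact (Primrec.or.to_comp.comp h4 h5).to₂
  exact (Primrec.and.to_comp.comp h1 (Primrec.and.to_comp.comp h2 h3)).to₂

theorem computable_evC
    (hs : Computable fun q : List (List Bool) × ℕ × ℕ => sts P (bk q.1) q.2.1 q.2.2)
    {L : α → List (List Bool)} {e B q k : α → ℕ} (hL : Computable L)
    (he : Computable e) (hB : Computable B) (hq : Computable q) (hk : Computable k) :
    Computable fun a => evC P (bk (L a)) (e a) (B a) (q a) (k a) := by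
  unfold evC num
  have g2 : Computable fun a => (L a, e a, k a + 1) :=
    hL.pair (he.pair (Computable.succ.comp hk))
  have h1 : Computable fun a => sts P (bk (L a)) (e a) (k a + 1) := Computable.comp hs g2
  have h2 : Computable fun a => (sts P (bk (L a)) (e a) (k a + 1)).2.2.2.2 :=
    Computable.snd.comp (Computable.snd.comp (Computable.snd.comp (Computable.snd.comp h1)))
  have h3 : Computable fun a => (sts P (bk (L a)) (e a) (k a + 1)).2.2.2.2.getD (k a) 0 :=
    (Primrec.list_getD 0).to_comp.comp h2 hk
  have h4 : Computable fun a => B a * 2 ^ k a :=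
    Primrec.nat_mul.to_comp.comp hB (primrec_pow.to_comp.comp (Computable.const 2) hk)
  have h5 : Computable fun a => (sts P (bk (L a)) (e a) (k a + 1)).2.2.2.2.getD (k a) 0 *
      2 ^ q a :=
    Primrec.nat_mul.to_comp.comp h3 (primrec_pow.to_comp.comp (Computable.const 2) hq)
  exact Primrec.nat_lt.decide.to_comp.comp h4 h5

end aux

theorem computable_Evt (P : Prm) (hy : Computable₂ P.y)
    (hfr : Computable fun p : ℕ × ℕ × ℕ => P.fr p.1 p.2.1 p.2.2) (hell : Computable P.ell)
    (hcl : Computable fun p : ℕ × ℕ × ℕ => P.cl p.1 p.2.1 p.2.2) : Computable₂ (Evt P) := by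
  have hs := computable_stsL P hy hfr hell hcl
  have u1 : Computable fun n : ℕ => n.unpair.1 := Computable.fst.comp Computable.unpair
  have u2 : Computable fun n : ℕ => n.unpair.2 := Computable.snd.comp Computable.unpair
  have hL : Computable fun q : ℕ × List (List Bool) => q.2 := Computable.snd
  have hc : Computable fun q : ℕ × List (List Bool) => q.1 := Computable.fst
  have hc1 := u1.comp hc
  have hc2 := u2.comp hc
  have hc21 := u1.comp hc2
  have hc22 := u2.comp hc2
  have hc221 := u1.comp hc22
  have hc222 := u2.comp hc22
  have hc2221 := u1.comp hc222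
  have hc2222 := u2.comp hc222
  have hlen : Computable fun q : ℕ × List (List Bool) => q.2.length :=
    Computable.list_length.comp hL
  have hk : Computable fun q : ℕ × List (List Bool) => q.2.length - 1 :=
    Primrec.nat_sub.to_comp.comp hlen (Computable.const 1)
  have h1 := Primrec.nat_lt.decide.to_comp.comp hc1 hlen
  have h2 := Primrec.nat_lt.decide.to_comp.comp hc21 (Computable.const (4 : ℕ))
  have h3 := Primrec.eq.decide.to_comp.comp hc21 (Computable.const (4 : ℕ))
  have h4 := computable_evT hs hL hc22 hc21 hk
  have h5 := computable_evC hs hL hc221 hc2221 hc2222 hk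
  exact (Primrec.and.to_comp.comp h1 (Computable.cond h2 h4
    (Computable.cond h3 h5 (Computable.const true)))).to₂

end Pool.Agent.H938R3.TC
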