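import Pool.Agent.H938R3.TC.BStep
import Pool.Agent.Helper583.TTBMach

/-!
The strategies with a low oracle: convergence of the positions.
-/

namespace Pool.Agent.H938R3.TC

open Nat.Partrec (Code)
open Filter Topology
open Pool.Agent.Helper583.TT
open Pool.Agent.Helper583.TC.J2 (srchO srchO_some srchO_ne srchO_succ primrec_srchO valsO
  valsO_succ primrec_valsO)

variable {A : ℕ → Bool} {P : Prm} {α : ℕ → List Bool}

/-- the position number `k` -/
noncomputable def ps (P : Prm) (α : ℕ → List Bool) (e k : ℕ) : ℝ := (num P α e k : ℝ) / 2 ^ k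

/-- the word `σ` of indices `< k` covers the number `x` -/
def Cv (P : Prm) (α : ℕ → List Bool) (e k : ℕ) (σ : List ℕ) (x : ℝ) : Prop :=
  ∀ j < σ.length, j ≤ σ.getD j 0 ∧ σ.getD j 0 < k ∧
    |ps P α e (σ.getD j 0) - x| < 2 ^ e / 2 ^ (j + 1)

/-- `g` covers the number `x` -/
def Nm (P : Prm) (α : ℕ → List Bool) (e : ℕ) (x : ℝ) (g : ℕ → ℕ) : Prop :=
  ∀ j, j ≤ g j ∧ |ps P α e (g j) - x| < 2 ^ e / 2 ^ (j + 1)

theorem com_congr (P : Prm) {o o' : ℕ → Bool} (e : ℕ) {σ : List ℕ} (n : ℕ)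
    (h : ∀ j < σ.length, o j = o' j) : com P o e σ n = com P o' e σ n := by
  unfold com
  rw [dcf_congr (b' := o')]
  intro j hj
  rw [List.length_map] at hj
  exact h j hj

theorem lst_length (z : ℕ) : (lst z).length ≤ z := by
  have h := Encodable.length_le_encode (lst z)
  unfold lst at h ⊢
  rwa [Denumerable.encode_ofNat] at h

theorem com_tr (hA : Apx A (Evt P) α) {k k' : ℕ} (ht : Tr A α k) (hk : k ≤ k') {e : ℕ}
    {σ : List ℕ} (hσ : σ.length ≤ k) (n : ℕ) :
    com P (bt (α k')) e σ n = com P A e σ n :=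
  com_congr P e n fun j hj => hA.tr_le ht hk (by omega)

theorem cvd_iff (P : Prm) (o : ℕ → Bool) (e k : ℕ) (H : List ℕ) (n b m₀ s i : ℕ) :
    cvd P o e k H n b m₀ s i = true ↔ ∃ z < k, cov e k H i (lst z) = true ∧
      ∃ m, com P o e (lst z) n = some m ∧ tst P b k m₀ s m = true := by
  unfold cvd
  rw [List.any_eq_true]
  constructor
  · rintro ⟨z, hz, h⟩
    rw [Bool.and_eq_true, Option.any_eq_true] at h
    obtain ⟨h1, m, hm1, hm2⟩ := h
    exact ⟨z, List.mem_range.mp hz, h1, m, hm1, hm2⟩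
  · rintro ⟨z, hz, h1, m, hm1, hm2⟩
    refine ⟨z, List.mem_range.mpr hz, ?_⟩
    rw [Bool.and_eq_true, Option.any_eq_true]
    exact ⟨h1, m, hm1, hm2⟩

theorem fu_spec (P : Prm) (o : ℕ → Bool) (e k : ℕ) (H : List ℕ) (n b m₀ s : ℕ) :
    (∀ i < fu P o e k H n b m₀ s, cvd P o e k H n b m₀ s i = true) ∧
    (fu P o e k H n b m₀ s ≤ 2 ^ k → cvd P o e k H n b m₀ s (fu P o e k H n b m₀ s) = false) ∧
    fu P o e k H n b m₀ s ≤ 2 ^ k + 1 := by
  have h := firstUnc_spec (cvd P o e k H n b m₀ s) (2 ^ k + 1)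
  refine ⟨h.1, fun hle => h.2.1 (Nat.lt_succ_of_le hle), h.2.2⟩

theorem ps_mem (P : Prm) (α : ℕ → List Bool) (e k : ℕ) : 0 ≤ ps P α e k ∧ ps P α e k ≤ 1 := by
  have h := num_le P α e k
  have h' : (num P α e k : ℝ) ≤ 2 ^ k := by exact_mod_cast h
  refine ⟨by unfold ps; positivity, ?_⟩
  unfold ps
  rw [div_le_one (by positivity)]
  exact h'

theorem hs_restr (P : Prm) (α : ℕ → List Bool) (e k : ℕ) :
    ∀ g < k, (hs P α e (k + 1)).getD g 0 = (hs P α e k).getD g 0 := by
  intro g hg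
  rw [hs_getD P α e hg, hs_getD P α e (by omega : g < k + 1)]

/-- the number of the first uncovered point for the true history -/
def fk (P : Prm) (α : ℕ → List Bool) (e n b m₀ s k : ℕ) : ℕ :=
  fu P (bt (α k)) e k (hs P α e k) n b m₀ s

theorem fk_le (P : Prm) (α : ℕ → List Bool) (e n b m₀ s k : ℕ) :
    fk P α e n b m₀ s k ≤ 2 ^ k + 1 := (fu_spec _ _ _ _ _ _ _ _ _).2.2

/-- coverage at true stages persists -/
theorem pers (hA : Apx A (Evt P) α) {e n b m₀ s k : ℕ} (ht : Tr A α k) {k' : ℕ} (hk : k ≤ k') :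
    ∀ i < fk P α e n b m₀ s k * 2 ^ (k' - k), ∃ z < k,
      cov e k' (hs P α e k') i (lst z) = true ∧
      ∃ m, com P A e (lst z) n = some m ∧ tst P b k m₀ s m = true := by
  induction k', hk using Nat.le_induction with
  | base =>
    intro i hi
    rw [Nat.sub_self, pow_zero, mul_one] at hi
    have h1 := (fu_spec P (bt (α k)) e k (hs P α e k) n b m₀ s).1 i hi
    rw [cvd_iff] at h1
    obtain ⟨z, hz, hc, m, hm, htst⟩ := h1
    refine ⟨z, hz, hc, m, ?_, htst⟩
    rw [← hm]
    exact (com_tr hA ht le_rfl (le_trans (lst_length z) hz.le) n).symm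
  | succ k' hk ih =>
    intro i hi
    have h2 : i / 2 < fk P α e n b m₀ s k * 2 ^ (k' - k) := by
      rw [Nat.succ_sub hk, pow_succ, ← mul_assoc] at hi
      omega
    obtain ⟨z, hz, hc, hm⟩ := ih (i / 2) h2
    refine ⟨z, hz, ?_, hm⟩
    obtain ⟨h3, h4⟩ := cov_succ (hs_restr P α e k') hc
    rcases Nat.mod_two_eq_zero_or_one i with h | h
    · rwa [show 2 * (i / 2) = i by omega] at h3
    · rwa [show 2 * (i / 2) + 1 = i by omega] at h4

theorem tst_mono {b k k' m₀ s m : ℕ} (hk : k ≤ k') (h : tst P b k m₀ s m = true) :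
    tst P b k' m₀ s m = true := by
  unfold tst at h ⊢
  by_cases hb : b = 0
  · rw [if_pos hb] at h ⊢
    rw [decide_eq_true_eq] at h ⊢
    omega
  · rw [if_neg hb] at h ⊢
    exact h

theorem fk_pers (hA : Apx A (Evt P) α) {e n b m₀ s k : ℕ} (ht : Tr A α k) {k' : ℕ}
    (hk : k ≤ k') :
    min (fk P α e n b m₀ s k * 2 ^ (k' - k)) (2 ^ k' + 1) ≤ fk P α e n b m₀ s k' := by
  obtain ⟨_, h2, _⟩ := fu_spec P (bt (α k')) e k' (hs P α e k') n b m₀ s
  by_cases hle : fk P α e n b m₀ s k' ≤ 2 ^ k'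
  · have hf := h2 hle
    rw [min_le_iff]
    left
    by_contra hlt
    rw [not_le] at hlt
    obtain ⟨z, hz, hc, m, hm, htst⟩ := pers hA ht hk _ hlt
    have : cvd P (bt (α k')) e k' (hs P α e k') n b m₀ s (fk P α e n b m₀ s k') = true := by
      rw [cvd_iff]
      refine ⟨z, by omega, hc, m, ?_, tst_mono hk htst⟩
      rw [com_tr hA ht hk (le_trans (lst_length z) hz.le) n]
      exact hm
    unfold fk at this
    rw [this] at hf
    exact absurd hf (by simp)
  · rw [min_le_iff]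
    right
    omega

theorem ps_mono (hA : Apx A (Evt P) α) {e n b m₀ s k₀ : ℕ}
    (h : ∀ k ≥ k₀, num P α e k = fk P α e n b m₀ s k - 1) {k k' : ℕ} (hk₀ : k₀ ≤ k)
    (ht : Tr A α k) (hk : k ≤ k') : ps P α e k ≤ ps P α e k' := by
  have h1 := h k hk₀
  have h2 := h k' (by omega)
  have h3 := fk_pers hA (e := e) (n := n) (b := b) (m₀ := m₀) (s := s) ht hk
  have h4 := num_le P α e k
  have h5 : num P α e k * 2 ^ (k' - k) ≤ num P α e k' := by
    rw [h2]
    have hpow : 2 ^ k' = 2 ^ k * 2 ^ (k' - k) := by rw [← pow_add]; congr 1; omega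
    have hpos : 0 < 2 ^ (k' - k) := by positivity
    rcases min_le_iff.1 h3 with h6 | h6
    · rcases Nat.eq_zero_or_pos (fk P α e n b m₀ s k) with h7 | h7
      · rw [h1, h7]
        simp
      · have h8 : fk P α e n b m₀ s k = num P α e k + 1 := by omega
        rw [h8, Nat.add_mul, one_mul] at h6
        omega
    · have h8 : num P α e k * 2 ^ (k' - k) ≤ 2 ^ k * 2 ^ (k' - k) := Nat.mul_le_mul_right _ h4
      omega
  unfold ps
  have hpow : (2 : ℝ) ^ k' = 2 ^ k * 2 ^ (k' - k) := by rw [← pow_add]; congr 1; omega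
  rw [div_le_div_iff₀ (by positivity) (by positivity), hpow]
  have h6 : (num P α e k : ℝ) * 2 ^ (k' - k) ≤ num P α e k' := by exact_mod_cast h5
  have h7 : (0 : ℝ) < 2 ^ k := by positivity
  nlinarith

theorem ps_tend_of_mono (hA : Apx A (Evt P) α) (e n b m₀ s k0 : ℕ)
    (h : ∀ k ≥ k0, num P α e k = fk P α e n b m₀ s k - 1) :
    ∃ L, Filter.Tendsto (ps P α e) Filter.atTop (nhds L) := by
  refine tendsto_of_no_upcrossings dense_univ ?_ ?_ ?_
  · rintro a - b' - hab ⟨h1, h2⟩
    have ha : 0 ≤ a := by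
      obtain ⟨k, hk⟩ := h1.exists
      exact le_trans (ps_mem P α e k).1 hk.le
    obtain ⟨q, hq⟩ := exists_pow_lt_of_lt_one (sub_pos.2 hab) (show (1 / 2 : ℝ) < 1 by norm_num)
    rw [one_div_pow] at hq
    set B : ℕ := ⌊a * 2 ^ q⌋₊ + 1 with hB
    have hq0 : (0 : ℝ) < 2 ^ q := by positivity
    have hB1 : a < (B : ℝ) / 2 ^ q := by
      rw [lt_div_iff₀ hq0, hB]
      push_cast
      exact Nat.lt_floor_add_one _
    have hB2 : (B : ℝ) / 2 ^ q < b' := by
      have h3 : (B : ℝ) ≤ a * 2 ^ q + 1 := by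
        rw [hB]
        push_cast
        have := Nat.floor_le (show 0 ≤ a * 2 ^ q by positivity)
        linarith
      rw [div_lt_iff₀ hq0]
      have h4 : 1 < (b' - a) * 2 ^ q := by
        rw [div_lt_iff₀ hq0] at hq
        exact hq
      nlinarith
    have hev : ∀ K, ∃ k ≥ K, evC P α e B q k = true := by
      intro K
      obtain ⟨k, hk, hk2⟩ := (h2.and_eventually (eventually_ge_atTop K)).exists
      refine ⟨k, hk2, ?_⟩
      unfold evC
      rw [decide_eq_true_eq]
      have h3 : (B : ℝ) / 2 ^ q < (num P α e k : ℝ) / 2 ^ k := lt_trans hB2 hk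
      rw [div_lt_div_iff₀ (by positivity) (by positivity)] at h3
      exact_mod_cast h3
    obtain ⟨k, hk, hk2, hk3⟩ := low_evC hA hev k0
    unfold evC at hk2
    rw [decide_eq_true_eq] at hk2
    have h3 : (B : ℝ) / 2 ^ q < ps P α e k := by
      unfold ps
      rw [div_lt_div_iff₀ (by positivity) (by positivity)]
      exact_mod_cast hk2
    obtain ⟨k', hk', hk'2⟩ := (h1.and_eventually (eventually_ge_atTop k)).exists
    have h4 := ps_mono hA h hk hk3 hk'2
    linarith
  · exact isBoundedUnder_of ⟨1, fun k => (ps_mem P α e k).2⟩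
  · exact isBoundedUnder_of ⟨0, fun k => (ps_mem P α e k).1⟩

/-- the positions converge -/
theorem ps_lim (hA : Apx A (Evt P) α) (e : ℕ) :
    ∃ L, Filter.Tendsto (ps P α e) Filter.atTop (nhds L) := by
  obtain ⟨k0, hk0⟩ := ev_const (md P α e) (fun j k h => md_mono P α e h) 4 (md_le P α e)
  have hle := md_le P α e k0
  have hconst : ∀ c : ℝ, (∀ k ≥ k0, ps P α e k = c) →
      ∃ L, Filter.Tendsto (ps P α e) Filter.atTop (nhds L) := by
    intro c hc
    refine ⟨c, ?_⟩
    have : ps P α e =ᶠ[Filter.atTop] fun _ => c := by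
      filter_upwards [Filter.eventually_ge_atTop k0] with k hk
      exact hc k hk
    exact (Filter.tendsto_congr' this).mpr tendsto_const_nhds
  have hcases : md P α e k0 = 0 ∨ md P α e k0 = 1 ∨ md P α e k0 = 2 ∨ md P α e k0 = 3 ∨
      md P α e k0 = 4 := by
    omega
  rcases hcases with h | h | h | h | h
  · apply hconst 0
    intro k hk
    have := (step0 P α e k (by rw [hk0 k hk, h])).1
    unfold ps
    rw [this]
    simp
  · have hkk : ∀ k ≥ k0, kk P α e k = kk P α e k0 := by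
      intro k hk
      induction k, hk using Nat.le_induction with
      | base => rfl
      | succ k hk ih => rw [(step1 P α e k (by rw [hk0 k hk, h])).1, ih]
    apply ps_tend_of_mono hA e (n1 e (kk P α e k0)) 0 0 0 k0
    intro k hk
    have h1 := (step1 P α e k (by rw [hk0 k hk, h])).2
    rw [hkk k hk] at h1
    have h2 := fk_le P α e (n1 e (kk P α e k0)) 0 0 0 k
    have h3 : md P α e (k + 1) = 1 := by rw [hk0 (k + 1) (by omega), h]
    unfold fk at h2 ⊢
    rcases h1 with ⟨h4, h5, h6⟩ | ⟨h4, h5, h6, h7, h8, h9⟩ | ⟨h4, h5, h6, h7⟩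
    · exact h6
    · omega
    · omega
  · apply hconst 0
    intro k hk
    have := (step2 P α e k (by rw [hk0 k hk, h])).2.2.1
    unfold ps
    rw [this]
    simp
  · have hkk : ∀ k ≥ k0, sa P α e k = sa P α e k0 ∧ rf P α e k = rf P α e k0 := by
      intro k hk
      induction k, hk using Nat.le_induction with
      | base => exact ⟨rfl, rfl⟩
      | succ k hk ih =>
        obtain ⟨-, h1, h2, -⟩ := step3 P α e k (by rw [hk0 k hk, h])
        rw [h1, h2]
        exact ih
    apply ps_tend_of_mono hA e (n2 P (sa P α e k0)) 1 (rf P α e k0) (sa P α e k0) k0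
    intro k hk
    obtain ⟨-, -, -, h1⟩ := step3 P α e k (by rw [hk0 k hk, h])
    rw [(hkk k hk).1, (hkk k hk).2] at h1
    have h3 : md P α e (k + 1) = 3 := by rw [hk0 (k + 1) (by omega), h]
    unfold fk
    rcases h1 with ⟨h4, h5, h6⟩ | ⟨h4, h5, h6⟩
    · exact h6
    · omega
  · apply hconst 1
    intro k hk
    have := (step4 P α e k (by rw [hk0 k hk, h])).2
    unfold ps
    rw [this]
    push_cast
    exact div_self (by positivity)

theorem cv_of_cov {e k i : ℕ} {σ : List ℕ} (h : cov e k (hs P α e k) i σ = true) :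
    Cv P α e k σ ((i : ℝ) / 2 ^ k) :=
  (cov_iff (a := num P α e) (fun _ hg => hs_getD P α e hg) i σ).1 h

theorem cov_of_cv {e k i : ℕ} {σ : List ℕ} (h : Cv P α e k σ ((i : ℝ) / 2 ^ k)) :
    cov e k (hs P α e k) i σ = true :=
  (cov_iff (a := num P α e) (fun _ hg => hs_getD P α e hg) i σ).2 h

/-- a true value committed at the limit covers everything eventually -/
theorem lim_cov (hA : Apx A (Evt P) α) {e n b m₀ s k1 : ℕ}
    (hnum : ∀ k ≥ k1, num P α e k = fk P α e n b m₀ s k - 1) {L : ℝ}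
    (hL : Filter.Tendsto (ps P α e) Filter.atTop (nhds L)) {g : ℕ → ℕ} (hg : Nm P α e L g)
    {l m : ℕ} (hcom : com P A e (pre g l) n = some m) {k2 : ℕ}
    (htst : ∀ k ≥ k2, tst P b k m₀ s m = true) :
    ∀ᶠ k in atTop, 2 ^ k < fk P α e n b m₀ s k := by
  -- the uncovered grid points converge to `L` as well
  have hfl : Filter.Tendsto (fun k => (fk P α e n b m₀ s k : ℝ) / 2 ^ k) Filter.atTop
      (nhds L) := by
    have h0 : Filter.Tendsto (fun k : ℕ => (1 / 2 : ℝ) ^ k) Filter.atTop (nhds 0) :=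
      tendsto_pow_atTop_nhds_zero_of_lt_one (by norm_num) (by norm_num)
    have h1 : Filter.Tendsto (fun k : ℕ => ps P α e k + (1 / 2 : ℝ) ^ k) Filter.atTop
        (nhds L) := by
      have := hL.add h0
      rwa [add_zero] at this
    refine tendsto_of_tendsto_of_tendsto_of_le_of_le' hL h1 ?_ ?_
    · filter_upwards [Filter.eventually_ge_atTop k1] with k hk
      unfold ps
      rw [hnum k hk]
      apply div_le_div_of_nonneg_right _ (by positivity)
      exact_mod_cast Nat.sub_le _ _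
    · filter_upwards [Filter.eventually_ge_atTop k1] with k hk
      unfold ps
      rw [hnum k hk, one_div, inv_pow, ← one_div, ← add_div]
      apply div_le_div_of_nonneg_right _ (by positivity)
      have : fk P α e n b m₀ s k ≤ (fk P α e n b m₀ s k - 1) + 1 := by omega
      exact_mod_cast this
  have hev : ∀ᶠ k in Filter.atTop, ∀ j ∈ Finset.range l, g j < k ∧
      |ps P α e (g j) - (fk P α e n b m₀ s k : ℝ) / 2 ^ k| < 2 ^ e / 2 ^ (j + 1) := by
    rw [Filter.eventually_all_finset]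
    intro j _
    have h1 : ∀ᶠ k in Filter.atTop, g j < k := Filter.eventually_gt_atTop (g j)
    have h2 : Filter.Tendsto (fun k => |ps P α e (g j) - (fk P α e n b m₀ s k : ℝ) / 2 ^ k|)
        Filter.atTop (nhds |ps P α e (g j) - L|) := (tendsto_const_nhds.sub hfl).abs
    have h3 := h2.eventually_lt_const (hg j).2
    exact h1.and h3
  obtain ⟨k3, hk3⟩ := hA.lim_lt l
  filter_upwards [Filter.eventually_ge_atTop k1, Filter.eventually_ge_atTop k2,
    Filter.eventually_gt_atTop (Encodable.encode (pre g l)), hev,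
    Filter.eventually_ge_atTop k3] with k hk1 hk2 hk3' hk4 hk5
  by_contra hcon
  push Not at hcon
  have hsp := (fu_spec P (bt (α k)) e k (hs P α e k) n b m₀ s).2.1 hcon
  have hcv : Cv P α e k (pre g l) (((fk P α e n b m₀ s k : ℕ) : ℝ) / 2 ^ k) := by
    intro j hj
    rw [preL_len] at hj
    rw [preL_get g l j hj]
    obtain ⟨h1, h2⟩ := hk4 j (Finset.mem_range.2 hj)
    exact ⟨(hg j).1, h1, h2⟩
  have hcov := cov_of_cv hcv
  have : cvd P (bt (α k)) e k (hs P α e k) n b m₀ s
      (fu P (bt (α k)) e k (hs P α e k) n b m₀ s) = true := by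
    rw [cvd_iff]
    refine ⟨Encodable.encode (pre g l), hk3', ?_, m, ?_, htst k hk2⟩
    · rw [lst_encode]; exact hcov
    · rw [lst_encode, ← hcom]
      apply com_congr
      intro j hj
      rw [preL_len] at hj
      exact hk3 k hk5 j hj
  rw [this] at hsp
  exact absurd hsp (by simp)

theorem cv_of_full {e n b m₀ s k : ℕ} (h : 2 ^ k < fk P α e n b m₀ s k) {x : ℝ}
    (hx0 : 0 ≤ x) (hx1 : x ≤ 1) : ∃ σ m, σ.length ≤ k ∧ Cv P α e k σ x ∧
      com P (bt (α k)) e σ n = some m ∧ tst P b k m₀ s m = true := by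
  set i := ⌊x * 2 ^ k⌋₊ with hi
  have hp : (0 : ℝ) < 2 ^ k := by positivity
  have hi1 : (i : ℝ) ≤ x * 2 ^ k := Nat.floor_le (by positivity)
  have hi2 : x * 2 ^ k < i + 1 := Nat.lt_floor_add_one _
  have hi3 : i ≤ 2 ^ k := by
    have : (i : ℝ) ≤ 2 ^ k := hi1.trans (by nlinarith)
    exact_mod_cast this
  have hc := (fu_spec P (bt (α k)) e k (hs P α e k) n b m₀ s).1 i (lt_of_le_of_lt hi3 h)
  rw [cvd_iff] at hc
  obtain ⟨z, hz, hcov, m, hm, ht⟩ := hc
  refine ⟨lst z, m, le_trans (lst_length z) hz.le, ?_, hm, ht⟩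
  intro j hj
  have h1 := cv_of_cov hcov j hj
  refine ⟨h1.1, h1.2.1, ?_⟩
  exact cov_slack (a := num P α e) (fun _ hg => hs_getD P α e hg) hcov
    ((div_le_iff₀ hp).2 hi1) ((lt_div_iff₀ hp).2 hi2) j hj

end Pool.Agent.H938R3.TC
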