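import Pool.Agent.H938R3.TC.BSpace
import Pool.Agent.Helper583.TTBMain

/-!
A region without isolated points: the two presentations are not homeomorphic with the oracle.
-/

namespace Pool.Agent.H938R3.TC

open Filter Topology
open Pool.Agent.Helper583.TT
open Pool.Agent.Helper583.TC.J2 (valsO valsO_pre valsO_sound)

set_option linter.unusedSectionVars false

variable {Y : Type} [MetricSpace Y] [CompleteSpace Y] {c : ℕ → Y}

namespace GeoA

variable (G : GeoA c) {h : G.N.Y ≃ₜ G.M.Y} {e : ℕ}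

theorem map_getD {σ : List ℕ} {f : ℕ → ℕ} {j : ℕ} (hj : j < σ.length) :
    (σ.map f).getD j 0 = f (σ.getD j 0) := by
  rw [List.getD_eq_getElem _ _ (by rw [List.length_map]; exact hj), List.getD_eq_getElem _ _ hj,
    List.getElem_map]

/-- commitments at the points `y k` -/
theorem com_y (hf : RnS G.A G.N G.M h (fc e)) {k' k n m : ℕ} {σ : List ℕ} {x : ℝ}
    (hσ : Cv G.P G.α e k' σ x) (hx : x = ps G.P G.α e k) (hk : k' ≤ k + 1)
    (hm : com G.P G.A e σ n = some m) :
    dist (G.M.c m) (h (⟨c (G.y e k)⟩ : GM G.ΦN)) ≤ 1 / 2 ^ n := by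
  subst hx
  refine commitO hf _ (σ := σ.map (G.y e)) ?_ hm
  intro j hj
  rw [List.length_map] at hj
  rw [map_getD hj]
  obtain ⟨h1, h2, h3⟩ := hσ j hj
  exact G.near_y h1 (by omega) h3

theorem near_w {j g : ℕ} (hg : j ≤ g) (h : |ps G.P G.α e g - G.L e| < 2 ^ e / 2 ^ (j + 1)) :
    dist (⟨c (G.y e g)⟩ : GM G.ΦN) ⟨G.w e⟩ ≤ 1 / 2 ^ j := by
  rw [G.dist_one (e := e) (fun e' he' => G.pi_y' g he') (fun e' he' => G.pi_w' he'), G.pi_y,
    G.pi_w]
  have h2 := G.yd e g
  have h4 := pow_anti (show j + 1 ≤ g + 2 by omega)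
  have h6 : |ps G.P G.α e g - G.L e| / 2 ^ e ≤ 1 / 2 ^ (j + 1) := by
    rw [div_le_iff₀ (by positivity)]
    have : (2:ℝ) ^ e / 2 ^ (j + 1) = 1 / 2 ^ (j + 1) * 2 ^ e := by ring
    linarith
  have h7 := pow_split j
  linarith

theorem exists_nm (e : ℕ) : ∃ g, Nm G.P G.α e (G.L e) g := by
  have h1 : ∀ j : ℕ, ∃ g, j ≤ g ∧ |ps G.P G.α e g - G.L e| < 2 ^ e / 2 ^ (j + 1) := by
    intro j
    obtain ⟨N, hN⟩ := Metric.tendsto_atTop.1 (G.hL e) (2 ^ e / 2 ^ (j + 1)) (by positivity)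
    refine ⟨max j N, le_max_left _ _, ?_⟩
    have := hN (max j N) (le_max_right _ _)
    rwa [Real.dist_eq] at this
  choose g hg using h1
  exact ⟨g, hg⟩

/-- commitments at the point `w` -/
theorem com_w (hf : RnS G.A G.N G.M h (fc e)) {g : ℕ → ℕ} (hg : Nm G.P G.α e (G.L e) g) :
    ∃ q, IsName G.M q (h (⟨G.w e⟩ : GM G.ΦN)) ∧
      (∀ l n m, com G.P G.A e (pre g l) n = some m → m = q n) ∧
      ∀ n, ∃ l₀, ∀ l ≥ l₀, com G.P G.A e (pre g l) n = some (q n) := by
  have h1 : IsName G.N (fun j => G.y e (g j)) (⟨G.w e⟩ : GM G.ΦN) := fun j =>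
    G.near_w (hg j).1 (hg j).2
  obtain ⟨q, hq, hq1, hq2⟩ := hf.spec h1
  have h2 : ∀ l n, com G.P G.A e (pre g l) n =
      rn (fc e) (dcf G.A (pre (fun j => G.y e (g j)) l)) n := by
    intro l n
    unfold com pre
    rw [List.map_map]
    rfl
  refine ⟨q, hq, fun l n m => ?_, fun n => ?_⟩
  · rw [h2]; exact hq1 l n m
  · obtain ⟨l₀, hl₀⟩ := hq2 n
    refine ⟨l₀, fun l hl => ?_⟩
    rw [h2]
    exact hl₀ G.A _ (by rw [pre_length]; exact hl) (pre_take _ hl) (fun _ _ => rfl)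

theorem ps_zero {k : ℕ} (h : num G.P G.α e k = 0) : ps G.P G.α e k = 0 := by
  unfold ps; rw [h]; simp

theorem L_zero {k₀ : ℕ} (h : ∀ k ≥ k₀, num G.P G.α e k = 0) : G.L e = 0 := by
  refine tendsto_nhds_unique (G.hL e) ?_
  refine tendsto_const_nhds.congr' ?_
  filter_upwards [eventually_ge_atTop k₀] with k hk
  exact (G.ps_zero (h k hk)).symm

/-- mode zero ends -/
theorem claim1 (hf : RnS G.A G.N G.M h (fc e)) (hg : RnS G.A G.M G.N h.symm (gc e))
    (h1 : ∀ k, num G.P G.α e k = 0) (h2 : ∀ k, ev1 G.P (bt (G.α k)) e k = none) : False := by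
  have hL0 : G.L e = 0 := G.L_zero (k₀ := 0) fun k _ => h1 k
  have hnm : Nm G.P G.α e (G.L e) (fun j => j) := by
    intro j
    refine ⟨le_rfl, ?_⟩
    rw [G.ps_zero (h1 j), hL0, sub_zero, abs_zero]
    positivity
  have hn : IsName G.N (G.y e) (⟨G.w e⟩ : GM G.ΦN) := fun j =>
    G.near_w (hnm j).1 (hnm j).2
  obtain ⟨q, hq, hq1, hq2⟩ := hf.spec hn
  have hq' : IsName G.M (fun n => q (n + 1)) (h (⟨G.w e⟩ : GM G.ΦN)) := fun n =>
    le_trans (hq (n + 1)) (pow_anti (Nat.le_succ n))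
  obtain ⟨r, hr, hr1, hr2⟩ := hg.spec hq'
  obtain ⟨K, hK⟩ := hr2 (e + 2)
  obtain ⟨k₀, hk₀⟩ := G.fr2 e (r (e + 2))
  choose T hT using hq2
  set S := (Finset.range (K + 1)).sup T with hS
  have hTS : ∀ n < K + 1, T n ≤ S := fun n hn => Finset.le_sup (Finset.mem_range.2 hn)
  obtain ⟨k1, hk1⟩ := G.ap.lim_lt (max S K)
  set l := max (max S K) (max (max k₀ e) k1) with hl
  have l1 : S ≤ l := le_trans (le_max_left _ _) (le_max_left _ _)
  have l2 : K ≤ l := le_trans (le_max_right _ _) (le_max_left _ _)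
  have l3 : k₀ ≤ l := le_trans (le_trans (le_max_left _ _) (le_max_left _ _)) (le_max_right _ _)
  have l4 : e ≤ l := le_trans (le_trans (le_max_right _ _) (le_max_left _ _)) (le_max_right _ _)
  have l5 : k1 ≤ l := le_trans (le_max_right _ _) (le_max_right _ _)
  have hp : l ≤ Nat.pair K l := Nat.right_le_pair _ _
  have hbits : ∀ j < max S K, bt (G.α (Nat.pair K l)) j = G.A j :=
    hk1 _ (le_trans l5 hp)
  have h3 := h2 (Nat.pair K l)
  have hvals : valsO (rn (fc e) (dcf (bt (G.α (Nat.pair K l))) ((List.range l).map (G.P.y e))))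
      (K + 1) = some (pre q (K + 1)) := by
    refine valsO_pre q _ _ fun n hn => ?_
    have e1 : (List.range l).map (G.P.y e) = pre (G.y e) l := rfl
    rw [e1]
    refine hT n _ _ ?_ ?_ ?_
    · rw [pre_length]; exact le_trans (hTS n hn) l1
    · exact pre_take _ (le_trans (hTS n hn) l1)
    · intro j hj
      exact hbits j (lt_of_lt_of_le hj (le_trans (hTS n hn) (le_max_left _ _)))
  have htail : (pre q (K + 1)).tail = pre (fun n => q (n + 1)) K := by
    apply List.ext_getElem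
    · rw [List.length_tail, pre_length, pre_length]
      omega
    · intro i h3 h4
      simp [pre]
  have hK2 : rn (gc e) (dcf (bt (G.α (Nat.pair K l))) (pre (fun n => q (n + 1)) K)) (e + 2) =
      some (r (e + 2)) := by
    refine hK _ _ ?_ ?_ ?_
    · rw [pre_length]
    · exact pre_take _ le_rfl
    · intro j hj
      exact hbits j (lt_of_lt_of_le hj (le_max_right _ _))
  unfold ev1 at h3
  rw [Nat.unpair_pair] at h3
  simp only at h3
  rw [hvals, Option.bind_some, htail, hK2, Option.bind_some, if_pos] at h3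
  · simp at h3
  · exact ⟨hk₀ _ (le_trans l3 hp), le_trans l4 hp⟩

/-- the position is small near the values found in mode zero -/
theorem guard (hf : RnS G.A G.N G.M h (fc e)) (hg : RnS G.A G.M G.N h.symm (gc e)) {k₀ K : ℕ}
    (ht : Tr G.A G.α k₀)
    (h1 : ev1 G.P (bt (G.α k₀)) e k₀ = some K) (h2 : ∀ k ≤ k₀, num G.P G.α e k = 0) {k : ℕ}
    (hk : k₀ ≤ k) (hz : num G.P G.α e k = 0) {y' : G.M.Y}
    (hy' : dist y' (h (⟨c (G.y e k)⟩ : GM G.ΦN)) ≤ 1 / 2 ^ K) :
    G.pi e (GM.val (Φ := G.ΦN) (h.symm y')) ≤ 1 / 4 := by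
  unfold ev1 at h1
  rw [Option.bind_eq_some_iff] at h1
  obtain ⟨qs, hqs, h1⟩ := h1
  rw [Option.bind_eq_some_iff] at h1
  obtain ⟨m, hm, h1⟩ := h1
  split at h1
  swap
  · simp at h1
  rename_i hfr
  obtain ⟨hfr, -⟩ := hfr
  simp only [Option.some.injEq] at h1
  have hk2 : k₀.unpair.2 ≤ k₀ := Nat.unpair_right_le k₀
  have hk1 : k₀.unpair.1 ≤ k₀ := Nat.unpair_left_le k₀
  rw [h1] at hqs hk1
  have hd1 : dcf (bt (G.α k₀)) ((List.range k₀.unpair.2).map (G.P.y e)) =
      dcf G.A ((List.range k₀.unpair.2).map (G.P.y e)) := by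
    apply dcf_congr
    intro j hj
    rw [List.length_map, List.length_range] at hj
    exact ht j (by omega)
  rw [hd1] at hqs
  have hps : ∀ j ≤ k₀, ps G.P G.α e j = 0 := fun j hj => G.ps_zero (h2 j hj)
  -- a name of `y k` which begins with `y 0, y 1, ...`
  obtain ⟨p, hp, hp2⟩ := exists_name G.N (⟨c (G.y e k)⟩ : GM G.ΦN)
    ((List.range k₀.unpair.2).map (G.y e)) (by
      intro j hj
      rw [List.length_map, List.length_range] at hj
      rw [map_getD (by rw [List.length_range]; exact hj)]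
      have h3 : (List.range k₀.unpair.2).getD j 0 = j := by
        rw [List.getD_eq_getElem _ _ (by rw [List.length_range]; exact hj), List.getElem_range]
      rw [h3]
      apply G.near_y le_rfl (by omega)
      rw [hps j (by omega), G.ps_zero hz, sub_zero, abs_zero]
      positivity)
  obtain ⟨q, hq, hq1, -⟩ := hf.spec hp
  have hqs2 : qs = pre q (K + 1) := by
    refine valsO_sound q _ _ ?_ qs hqs
    intro i m' h'
    refine hq1 k₀.unpair.2 i m' ?_
    rw [List.length_map, List.length_range] at hp2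
    rw [hp2]
    exact h'
  have hlen : qs.tail.length = K := by
    rw [hqs2, List.length_tail, pre_length]
    omega
  have hd2 : dcf (bt (G.α k₀)) qs.tail = dcf G.A qs.tail := by
    apply dcf_congr
    intro j hj
    rw [hlen] at hj
    exact ht j (by omega)
  rw [hd2] at hm
  have h3 : dist (G.N.c m) (h.symm y') ≤ 1 / 2 ^ (e + 2) := by
    refine commitO hg y' (σ := qs.tail) ?_ hm
    intro j hj
    rw [hqs2] at hj ⊢
    rw [List.length_tail, pre_length] at hj
    have hget : (pre q (K + 1)).tail.getD j 0 = q (j + 1) := by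
      rw [List.getD_eq_getElem?_getD, List.getElem?_tail,
        ← List.getD_eq_getElem?_getD, pre_getD q (by omega)]
    rw [hget]
    have h4 := hq (j + 1)
    have h5 := pow_anti (show j + 1 ≤ K by omega)
    have h6 := pow_split j
    have h7 := dist_triangle (G.M.c (q (j + 1))) (h (⟨c (G.y e k)⟩ : GM G.ΦN)) y'
    rw [dist_comm (h (⟨c (G.y e k)⟩ : GM G.ΦN)) y'] at h7
    linarith
  have h4 := gm_coord_le (Φ := G.ΦN) e (⟨c m⟩ : GM G.ΦN) (h.symm y')
  have h5 : G.ΦN.f e (c m) = 0 := by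
    refine theta_eq_zero_of (G.mono e) (fun k => (ps_mem G.P G.α e k).1)
      (fun k => (ps_mem G.P G.α e k).2) (G.fr1 e m k₀ hfr) ?_
    intro j hj
    exact hps j (by omega)
  have h6 : |G.ΦN.f e (c m) - G.ΦN.f e (GM.val (Φ := G.ΦN) (h.symm y'))| / 2 ^ e ≤
      1 / 2 ^ (e + 2) := le_trans h4 h3
  rw [h5, zero_sub, abs_neg, abs_of_nonneg (G.ΦN.nonneg _ _), div_le_iff₀ (by positivity)] at h6
  have h7 : (1:ℝ) / 2 ^ (e + 2) * 2 ^ e = 1 / 4 := by
    rw [pow_add]; field_simp; norm_num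
  rw [h7] at h6
  exact h6

end GeoA

end Pool.Agent.H938R3.TC
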