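import Pool.Agent.H938R3.TC.BCase
import Pool.Agent.Helper583.TTMain

/-!
A region without isolated points: two presentations, two-sided version.
-/

namespace Pool.Agent.H938R3.TC

open Filter Topology
open Pool.Agent.Helper583.TT

/-- if the isolated points are not dense there are two presentations such that no homeomorphism
between them is computable with the oracle `A` together with its inverse -/
theorem caseB2 {Y : Type} [MetricSpace Y] [CompleteSpace Y] {c : ℕ → Y}
    (hd : DenseRange c) (hinj : Function.Injective c)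
    (hc : CR fun p : ℕ × ℕ => dist (c p.1) (c p.2))
    (hiso : ¬ Dense {y : Y | IsOpen ({y} : Set Y)}) {A : ℕ → Bool} (hA : LowCE A) :
    ∃ M N : CMS, Nonempty (M.Y ≃ₜ Y) ∧ Nonempty (N.Y ≃ₜ Y) ∧
      ∀ h : M.Y ≃ₜ N.Y, ¬ (CompMapO A M N h ∧ CompMapO A N M h.symm) := by
  obtain ⟨x, hx⟩ : ∃ x, x ∉ closure {y : Y | IsOpen ({y} : Set Y)} := by
    by_contra hcon
    push Not at hcon
    exact hiso hcon
  have hopen : IsOpen (closure {y : Y | IsOpen ({y} : Set Y)})ᶜ := isClosed_closure.isOpen_compl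
  obtain ⟨o, ho⟩ := hd.exists_mem_open hopen ⟨x, hx⟩
  obtain ⟨ε, hε, hε2⟩ := Metric.isOpen_iff.1 hopen (c o) ho
  obtain ⟨u, hu⟩ := exists_pow_lt_of_lt_one hε (show (1 / 2 : ℝ) < 1 by norm_num)
  rw [one_div_pow] at hu
  obtain ⟨G, rfl⟩ := exists_geoA hd hinj hc o u (fun z hz hzo => by
    have h1 : z ∈ (closure {y : Y | IsOpen ({y} : Set Y)})ᶜ :=
      hε2 (lt_trans (Metric.mem_ball.2 hz) hu)
    exact h1 (subset_closure hzo)) hA
  exact ⟨G.N, G.M, ⟨gmHomeo⟩, ⟨gmHomeo⟩, fun h hh => G.caseB hh.1 hh.2⟩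

end Pool.Agent.H938R3.TC
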