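import Pool.Agent.H938R3.TC.BEvt
import Pool.Agent.H938R3.TC.BMach
import Pool.Agent.Helper583.TTBSpace

/-!
A region without isolated points: the two presentations.
-/

namespace Pool.Agent.H938R3.TC

open Filter Topology
open Pool.Agent.Helper583.TT

/-- everything which is fixed before the construction, with a low oracle -/
structure GeoA {Y : Type} [MetricSpace Y] (c : ℕ → Y) extends Geo c where
  A : ℕ → Bool
  α : ℕ → List Bool
  ap : Apx A (Evt toGeo.P) α

variable {Y : Type} [MetricSpace Y] {c : ℕ → Y}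

theorem exists_geoA [CompleteSpace Y] (hd : DenseRange c)
    (hinj : Function.Injective c) (hc : CR fun p : ℕ × ℕ => dist (c p.1) (c p.2))
    (o u : ℕ) (hU : ∀ x : Y, dist x (c o) < 1 / 2 ^ u → ¬ IsOpen ({x} : Set Y))
    {A : ℕ → Bool} (hA : LowCE A) : ∃ G : GeoA c, G.A = A := by
  obtain ⟨G⟩ := exists_geo hd hinj hc o u hU
  obtain ⟨α, hα⟩ := hA.apx (Evt G.P) (computable_Evt G.P G.hy G.hfr G.hell G.hcl)
  exact ⟨⟨G, A, α, hα⟩, rfl⟩

namespace GeoA

variable (G : GeoA c)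

/-- the limit of the positions -/
noncomputable def L (e : ℕ) : ℝ := (ps_lim G.ap e).choose

theorem hL (e : ℕ) : Tendsto (ps G.P G.α e) atTop (𝓝 (G.L e)) := (ps_lim G.ap e).choose_spec

theorem mono (e : ℕ) : StrictMono (G.ρ e) := strictMono_nat_of_lt_succ (G.ρ0 e)

/-- first coordinates -/
noncomputable def pi (e : ℕ) (x : Y) : ℝ := theta (G.ρ e) (ps G.P G.α e) (G.L e) (dist x (G.w e))

theorem pi_mem (e : ℕ) (x : Y) : 0 ≤ G.pi e x ∧ G.pi e x ≤ 1 :=
  theta_mem (fun k => (ps_mem G.P G.α e k).1) (fun k => (ps_mem G.P G.α e k).2) (G.hL e) _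

theorem pi_cont (e : ℕ) : Continuous (G.pi e) := by
  have h1 := theta_continuous (G.mono e) (fun k => (ps_mem G.P G.α e k).1)
    (fun k => (ps_mem G.P G.α e k).2) (G.hL e)
  exact h1.comp_continuous (continuous_id.dist continuous_const) fun x => dist_nonneg

theorem pi_far {e : ℕ} {x : Y} (h : 2 / 2 ^ G.ρ e 0 ≤ dist x (G.w e)) : G.pi e x = 0 :=
  theta_eq_zero (G.mono e) (fun k => (ps_mem G.P G.α e k).1) (fun k => (ps_mem G.P G.α e k).2) h

theorem pi_y (e k : ℕ) : G.pi e (c (G.y e k)) = ps G.P G.α e k :=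
  theta_eq_pos (G.mono e) (fun k => (ps_mem G.P G.α e k).1) (fun k => (ps_mem G.P G.α e k).2)
    (G.yl e k) (G.yu e k)

theorem pi_w (e : ℕ) : G.pi e (G.w e) = G.L e := by
  unfold pi theta
  rw [dist_self, if_pos le_rfl]

theorem pi_w' {e e' : ℕ} (h : e' ≠ e) : G.pi e' (G.w e) = 0 := by
  apply G.pi_far
  have h1 := G.ws e e' h.symm
  have h2 : (0:ℝ) ≤ 2 / 2 ^ G.ρ e 0 := by positivity
  linarith

theorem yd (e k : ℕ) : dist (c (G.y e k)) (G.w e) ≤ 1 / 2 ^ (k + 2) := by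
  refine le_trans (G.yu e k) ?_
  have h1 := pow_le_pow_right₀ (show (1:ℝ) ≤ 2 by norm_num) (G.ρ1 e k)
  rw [div_div]
  apply one_div_le_one_div_of_le (by positivity)
  rw [show k + 2 = (k + 1) + 1 by ring, pow_succ]
  linarith

theorem pi_y' {e e' : ℕ} (k : ℕ) (h : e' ≠ e) : G.pi e' (c (G.y e k)) = 0 := by
  apply G.pi_far
  have h1 := G.ws e e' h.symm
  have h2 : dist (c (G.y e k)) (G.w e) ≤ 2 / 2 ^ G.ρ e 0 := by
    refine le_trans (G.yu e k) ?_
    have h3 : (1:ℝ) / 2 ^ G.ρ e k ≤ 1 / 2 ^ G.ρ e 0 := by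
      apply one_div_le_one_div_of_le (by positivity)
      exact pow_le_pow_right₀ (by norm_num) ((G.mono e).monotone (Nat.zero_le k))
    have h4 : (2:ℝ) / 2 ^ G.ρ e 0 = 2 * (1 / 2 ^ G.ρ e 0) := by ring
    have h5 : (0:ℝ) ≤ 1 / 2 ^ G.ρ e 0 := by positivity
    linarith
  have h3 := dist_triangle (G.w e) (c (G.y e k)) (G.w e')
  rw [dist_comm (G.w e) (c (G.y e k))] at h3
  linarith

/-- coordinates of the first space -/
noncomputable def ΦN : Crd Y where
  f := G.pi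
  nonneg := fun e x => (G.pi_mem e x).1
  le_one := fun e x => (G.pi_mem e x).2
  cont := G.pi_cont

/-- coordinates of the second space -/
noncomputable def ΦM : Crd Y where
  f := phi (acts G.P G.α) G.ell c
  nonneg := fun e x => (phi_mem _ _ _ e x).1
  le_one := fun e x => (phi_mem _ _ _ e x).2
  cont := fun e => phi_cont _ _ _ e

theorem comp_sts : Computable₂ (sts G.P G.α) :=
  computable_sts G.P G.hy G.hfr G.hell G.hcl G.ap.comp

theorem cr_N : CR fun p : ℕ × ℕ => G.ΦN.f p.1 (c p.2) :=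
  cr_theta G.hc G.hy G.hρ G.ρ0 G.ρ1 G.yu G.wn (computable_num G.P G.comp_sts)
    (num_le G.P G.α) G.L

theorem cr_M : CR fun p : ℕ × ℕ => G.ΦM.f p.1 (c p.2) :=
  cr_phi (computable_acts G.P G.comp_sts) (fun e _ _ h h' => acts_unique G.P G.α e h h') G.hell G.hc

/-- the first presentation -/
noncomputable def N [CompleteSpace Y] : CMS :=
  haveI : CompleteSpace (GM G.ΦN) := gm_complete
  { Y := GM G.ΦN
    c := fun i => ⟨c i⟩
    dense := gm_dense G.hd
    comp := comp_of_cr (cr_gm G.hc G.ΦN G.cr_N) }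

/-- the second presentation -/
noncomputable def M [CompleteSpace Y] : CMS :=
  haveI : CompleteSpace (GM G.ΦM) := gm_complete
  { Y := GM G.ΦM
    c := fun i => ⟨c i⟩
    dense := gm_dense G.hd
    comp := comp_of_cr (cr_gm G.hc G.ΦM G.cr_M) }

/-- distance of points with only one coordinate -/
theorem dist_one {e : ℕ} {x x' : Y} (h : ∀ e' ≠ e, G.pi e' x = 0) (h' : ∀ e' ≠ e, G.pi e' x' = 0) :
    dist (⟨x⟩ : GM G.ΦN) ⟨x'⟩ = dist x x' + |G.pi e x - G.pi e x'| / 2 ^ e := by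
  rw [gm_dist]
  congr 1
  refine (tsum_eq_single e fun e' he' => ?_).trans rfl
  show |G.pi e' x - G.pi e' x'| / 2 ^ e' = 0
  rw [h e' he', h' e' he', sub_zero, abs_zero, zero_div]

theorem near_y {e j g k : ℕ} (hg : j ≤ g) (hk : j ≤ k)
    (h : |ps G.P G.α e g - ps G.P G.α e k| < 2 ^ e / 2 ^ (j + 1)) :
    dist (⟨c (G.y e g)⟩ : GM G.ΦN) ⟨c (G.y e k)⟩ ≤ 1 / 2 ^ j := by
  rw [G.dist_one (e := e) (fun e' he' => G.pi_y' g he') (fun e' he' => G.pi_y' k he'), G.pi_y,
    G.pi_y]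
  have h1 := dist_triangle_right (c (G.y e g)) (c (G.y e k)) (G.w e)
  have h2 := G.yd e g
  have h3 := G.yd e k
  have h4 := pow_anti (show j + 2 ≤ g + 2 by omega)
  have h5 := pow_anti (show j + 2 ≤ k + 2 by omega)
  have h6 : |ps G.P G.α e g - ps G.P G.α e k| / 2 ^ e ≤ 1 / 2 ^ (j + 1) := by
    rw [div_le_iff₀ (by positivity)]
    have : (2:ℝ) ^ e / 2 ^ (j + 1) = 1 / 2 ^ (j + 1) * 2 ^ e := by ring
    linarith
  have h7 := pow_split j
  have h8 := pow_split (j + 1)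
  simp only [show j + 1 + 1 = j + 2 by ring] at h8
  linarith

end GeoA

end Pool.Agent.H938R3.TC
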