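import Pool.Agent.H938R3.TC.Defs

/-!
Running functionals on finite words with finitely many bits of an oracle.
-/

namespace Pool.Agent.H938R3.TC

open Nat.Partrec (Code)
open Pool.Agent.Helper583.TT
open Pool.Agent.Helper583.TC.J2 (srchO srchO_some srchO_ne srchO_succ primrec_srchO valsO
  valsO_succ primrec_valsO)

/-- the word `σ` together with the bits given by `b` -/
def dcf (b : ℕ → Bool) (σ : List ℕ) : List ℕ :=
  (List.range σ.length).map fun j => Nat.pair (σ.getD j 0) (b j).toNat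

/-- the bits of a finite string -/
def bt (a : List Bool) (j : ℕ) : Bool := a.getD j false

theorem dcf_length (b : ℕ → Bool) (σ : List ℕ) : (dcf b σ).length = σ.length := by
  simp [dcf]

theorem dcf_congr {b b' : ℕ → Bool} {σ : List ℕ} (h : ∀ j < σ.length, b j = b' j) :
    dcf b σ = dcf b' σ := by
  unfold dcf
  apply List.map_congr_left
  intro j hj
  rw [h j (List.mem_range.1 hj)]

theorem dcf_pre (A : ℕ → Bool) (p : ℕ → ℕ) (L : ℕ) : dcf A (pre p L) = pre (orc A p) L := by
  unfold dcf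
  rw [pre_length]
  unfold pre
  apply List.map_congr_left
  intro j hj
  rw [List.mem_range] at hj
  unfold orc
  congr 1
  have := pre_getD p hj
  unfold pre at this
  exact this

theorem dcf_take (b : ℕ → Bool) (σ : List ℕ) (l : ℕ) (hl : l ≤ σ.length) :
    (dcf b σ).take l = dcf b (σ.take l) := by
  unfold dcf
  rw [← List.map_take, List.take_range, Nat.min_eq_left hl, List.length_take,
    Nat.min_eq_left hl]
  apply List.map_congr_left
  intro j hj
  rw [List.mem_range] at hj
  congr 1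
  rw [List.getD_eq_getElem?_getD, List.getD_eq_getElem?_getD, List.getElem?_take, if_pos hj]

theorem srchO_mono {f : ℕ → Option ℕ} {i j v : ℕ} (h : srchO f i = some v) (hij : i ≤ j) :
    srchO f j = some v := by
  induction j, hij using Nat.le_induction with
  | base => exact h
  | succ j _ ih =>
    rw [srchO_succ, ih]
    rfl

theorem srchO_first {f : ℕ → Option ℕ} {i k m : ℕ} (hk : k < i) (h : f k = some m) :
    ∃ k' ≤ k, ∃ v, f k' = some v ∧ srchO f i = some v := by
  obtain ⟨v, hv⟩ := srchO_ne f (k + 1) k m (Nat.lt_succ_self k) h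
  obtain ⟨k', hk', hk2⟩ := srchO_some f (k + 1) v hv
  exact ⟨k', by omega, v, hk2, srchO_mono hv hk⟩

/-- the program `c` with the oracle `A` computes `h`, all computations are sound -/
def RnS (A : ℕ → Bool) (M N : CMS) (h : M.Y → N.Y) (c : ℕ) : Prop :=
  ∀ x p, IsName M p x → ∃ q, IsName N q (h x) ∧
    (∀ t L n m, evl t c (pre (orc A p) L) n = some m → m = q n) ∧
    ∀ n, ∃ t L, evl t c (pre (orc A p) L) n = some (q n)

theorem rnS_of_comp {A : ℕ → Bool} {M N : CMS} {h : M.Y → N.Y} (hc : CompMapO A M N h) :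
    ∃ c, RnS A M N h c := by
  obtain ⟨φ, hφ, hspec⟩ := hc
  obtain ⟨c, hc⟩ := Code.exists_code.1 hφ
  have key : ∀ (l : List ℕ) (n m : ℕ),
      (m ∈ φ (l, n) ↔ ∃ t, evl t (Encodable.encode c) l n = some m) := by
    intro l n m
    have h1 : m ∈ c.eval (Encodable.encode (l, n)) ↔ m ∈ φ (l, n) := by
      rw [hc]
      simp
    rw [← h1, Code.evaln_complete]
    unfold evl
    rw [Denumerable.ofNat_encode]
    rfl
  refine ⟨Encodable.encode c, fun x p hp => ?_⟩
  obtain ⟨q, hq, hq2⟩ := hspec x p hp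
  refine ⟨q, hq, fun t L n m hm => (hq2 n).2 L m ((key _ _ _).2 ⟨t, hm⟩), fun n => ?_⟩
  obtain ⟨k, hk⟩ := (hq2 n).1
  obtain ⟨t, ht⟩ := (key _ _ _).1 hk
  exact ⟨t, k, ht⟩

theorem RnS.spec {A : ℕ → Bool} {M N : CMS} {h : M.Y → N.Y} {c : ℕ} (hr : RnS A M N h c)
    {x : M.Y} {p : ℕ → ℕ} (hp : IsName M p x) : ∃ q, IsName N q (h x) ∧
      (∀ L n m, rn c (dcf A (pre p L)) n = some m → m = q n) ∧
      ∀ n, ∃ L₀, ∀ (b : ℕ → Bool) (σ : List ℕ), L₀ ≤ σ.length → σ.take L₀ = pre p L₀ →
        (∀ j < L₀, b j = A j) → rn c (dcf b σ) n = some (q n) := by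
  obtain ⟨q, hq, hs, ht⟩ := hr x p hp
  refine ⟨q, hq, ?_, ?_⟩
  · intro L n m hm
    rw [dcf_pre] at hm
    obtain ⟨k, hk, hk2⟩ := srchO_some _ _ _ hm
    rw [pre_length] at hk hk2
    rw [pre_take _ (by omega)] at hk2
    exact hs _ _ _ _ hk2
  · intro n
    obtain ⟨t, L, htL⟩ := ht n
    refine ⟨max t L, ?_⟩
    intro b σ h1 h2 h3
    have hpre : ∀ l ≤ max t L, (dcf b σ).take l = pre (orc A p) l := by
      intro l hl
      rw [dcf_take b σ l (le_trans hl h1)]
      have h4 : σ.take l = pre p l := by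
        rw [← pre_take p hl, ← h2, List.take_take, Nat.min_eq_left hl]
      rw [h4, ← dcf_pre]
      apply dcf_congr
      intro j hj
      rw [pre_length] at hj
      exact h3 j (lt_of_lt_of_le hj hl)
    have h5 : evl (dcf b σ).length c ((dcf b σ).take L) n = some (q n) := by
      rw [hpre L (le_max_right _ _), dcf_length]
      exact Nat.Partrec.Code.evaln_mono (le_trans (le_max_left _ _) h1) htL
    obtain ⟨L', hL', v, hv, hv2⟩ := srchO_first
      (f := fun L => evl (dcf b σ).length c ((dcf b σ).take L) n)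
      (i := (dcf b σ).length + 1) (k := L) (m := q n)
      (by rw [dcf_length]; exact Nat.lt_succ_of_le (le_trans (le_max_right _ _) h1)) h5
    have h6 : rn c (dcf b σ) n = some v := hv2
    rw [h6]
    rw [hpre L' (le_trans hL' (le_max_right _ _))] at hv
    rw [hs _ _ _ _ hv]

theorem commitO {A : ℕ → Bool} {M N : CMS} {h : M.Y → N.Y} {c : ℕ} (hr : RnS A M N h c) (x : M.Y)
    {σ : List ℕ} (hσ : ∀ j < σ.length, dist (M.c (σ.getD j 0)) x ≤ 1 / 2 ^ j) {n m : ℕ}
    (hm : rn c (dcf A σ) n = some m) : dist (N.c m) (h x) ≤ 1 / 2 ^ n := by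
  obtain ⟨p, hp, hps⟩ := exists_name M x σ hσ
  obtain ⟨q, hq, hq1, -⟩ := hr.spec hp
  have := hq1 σ.length n m (by rw [hps]; exact hm)
  rw [this]
  exact hq n

/-- limits of true approximations -/
theorem Apx.le {A : ℕ → Bool} {U : ℕ → List (List Bool) → Bool} {α : ℕ → List Bool}
    (h : Apx A U α) {k n : ℕ} (hk : bt (α k) n = true) : A n = true := by
  obtain ⟨k₀, hk₀⟩ := h.lim n
  have h1 := h.mono k (max k k₀) n (le_max_left _ _) hk
  rw [hk₀ _ (le_max_right _ _)] at h1
  exact h1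

/-- the approximation number `k` is true -/
def Tr (A : ℕ → Bool) (α : ℕ → List Bool) (k : ℕ) : Prop := ∀ n < k, bt (α k) n = A n

theorem Apx.tr_le {A : ℕ → Bool} {U : ℕ → List (List Bool) → Bool} {α : ℕ → List Bool}
    (h : Apx A U α) {k k' : ℕ} (hk : Tr A α k) (hkk : k ≤ k') {n : ℕ} (hn : n < k) :
    bt (α k') n = A n := by
  cases hA : A n with
  | true =>
    have h1 : bt (α k) n = true := (hk n hn).trans hA
    exact h.mono k k' n hkk h1
  | false =>
    by_contra hcon
    have h1 : bt (α k') n = true := by simpa using hcon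
    rw [h.le h1] at hA
    exact absurd hA (by simp)

theorem Apx.lim_lt {A : ℕ → Bool} {U : ℕ → List (List Bool) → Bool} {α : ℕ → List Bool}
    (h : Apx A U α) (l : ℕ) : ∃ k₀, ∀ k ≥ k₀, ∀ n < l, bt (α k) n = A n := by
  choose f hf using h.lim
  refine ⟨(Finset.range l).sup f, fun k hk n hn => ?_⟩
  exact hf n k (le_trans (Finset.le_sup (Finset.mem_range.2 hn)) hk)

end Pool.Agent.H938R3.TC
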